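import Pool.Agent.Helper57.PD.Slice
import Pool.Agent.Helper41.PD.Adapt

/-!
# EV3: the slices of a shadow with boxes
-/

set_option autoImplicit false

namespace Pool.Agent.Helper57.PD

open Pool.Agent.Helper41.PD Pool.Agent.Helper30.EV3 Pool.Agent.Helper85.Exp Pool.Agent.Helper2.PD

section

variable {P : Type} {nxt : Equiv.Perm P} {op : P → P} {C : Finset P} {τ : P → ℕ} {F : Type}

/-- the crossings of a list of boxes -/
def crl (Bs : List (List P × List (P × ℕ))) : List P := Bs.flatMap fun b => b.2.map Prod.fst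

/-- the crossings before the box `t` -/
def pre (Bs : List (List P × List (P × ℕ))) (t : ℕ) : List P := crl (Bs.take t)

/-- a box without the positions -/
def bxo (b : List P × List (P × ℕ)) : List P × List P := (b.1, b.2.map Prod.fst)

theorem pre_succ {Bs : List (List P × List (P × ℕ))} {t : ℕ} (ht : t < Bs.length) : pre Bs (t + 1) = pre Bs t ++ (bxo Bs[t]).2 := by
  unfold pre crl
  rw [List.take_succ_eq_append_getElem ht, List.flatMap_append]
  simp [bxo]

theorem crl_split {Bs : List (List P × List (P × ℕ))} {t : ℕ} (ht : t < Bs.length) :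
    crl Bs = pre Bs t ++ (bxo Bs[t]).2 ++ crl (Bs.drop (t + 1)) := by
  have e : Bs = Bs.take t ++ Bs[t] :: Bs.drop (t + 1) := by
    rw [← List.drop_eq_getElem_cons ht, List.take_append_drop]
  conv_lhs => rw [e]
  unfold pre crl
  rw [List.flatMap_append, List.flatMap_cons]
  simp [bxo]

theorem SB.isBox {H : Cut nxt op C τ} {lf : P → Bool} {Sp : Finset P} {Bs : List (List P × List (P × ℕ))}
    (hS : SB H lf Sp Bs) {b : List P × List (P × ℕ)} (hb : b ∈ Bs) : IsBox H Sp (bxo b) where
  nodup := hS.nd b hb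
  mem := hS.mem b hb
  letter := by
    intro p hp
    simp only [bxo, List.mem_map] at hp
    obtain ⟨c, hc, rfl⟩ := hp
    obtain ⟨h1, h2⟩ := hS.let_ b hb c hc
    rw [List.getElem?_eq_some_iff] at h1 h2
    obtain ⟨k1, h1⟩ := h1
    obtain ⟨k2, h2⟩ := h2
    exact ⟨c.2, k2, h1, h2⟩
  ex := by
    intro k hk
    obtain ⟨c, hc, rfl⟩ := hS.ex b hb k hk
    obtain ⟨h1, h2⟩ := hS.let_ b hb c hc
    rw [List.getElem?_eq_some_iff] at h1 h2
    obtain ⟨k1, h1⟩ := h1
    obtain ⟨k2, h2⟩ := h2
    exact ⟨c.1, List.mem_map.2 ⟨c, hc, rfl⟩, h1, h2⟩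
  spec := by
    rcases hS.spec b hb with h | ⟨p, hp, k, h⟩
    · left
      intro p hp
      simp only [bxo, List.mem_map] at hp
      obtain ⟨c, hc, rfl⟩ := hp
      exact h c hc
    · right
      exact ⟨p, hp, by simp [bxo, h]⟩

theorem SB.mid {H : Cut nxt op C τ} {lf : P → Bool} {L R : P → F} {Sp : Finset P} {Bs : List (List P × List (P × ℕ))}
    (hS : SB H lf Sp Bs) (hlf : ∀ p, lf (op p) = !lf p) (hc : Corn nxt op lf L R) (hne : ∀ p, H.lab p ≠ H.lab (op p))
    {t : ℕ} (ht : t < Bs.length) : Mid H lf L R Sp (pre Bs t) (bxo Bs[t]) (crl (Bs.drop (t + 1))) where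
  hlf := hlf
  corn := hc
  box := SB.isBox hS (List.getElem_mem ht)
  sorted := by
    have h := hS.srt
    rw [← crl_split ht]
    exact h
  all := by
    intro q
    rw [← crl_split ht]
    exact hS.all q
  ne := hne

end

section shadow

variable {P : Type} {G : Sh P} {C : Finset P} {τ : P → ℕ}

theorem corn_of (ho : ∀ i, G.op i ≠ i) : Corn G.nxt G.op G.lf (Lf G) (Rf G) where
  W p hp := corner_W hp (ho p)
  E p hp := by
    have h := corner_E hp (ho p)
    unfold pr
    rw [G.op_op]
    exact h.symm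
  S p hp := by
    have h := corner_S hp
    unfold pr
    rw [G.op_op]
    exact h.symm
  N p hp := corner_N hp

/-- the two strands of a crossing have different labels: in a plane shadow by the index of the faces -/
theorem lab_ne (ho : ∀ i, G.op i ≠ i) {κ : Face G → ℤ} (hκ : ∀ i, κ (Lf G i) = κ (Rf G i) + 1) (H : Cut G.nxt G.op C τ) (p : P) :
    H.lab p ≠ H.lab (G.op p) := by
  have hsc : ∀ e, κ (Lf G (sc G.nxt G.op e)) = κ (Lf G e) := by
    intro e
    unfold sc
    by_cases h : G.lf (G.op (G.nxt e)) = true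
    · have h1 := corner_W h (ho _)
      rw [G.op_op, Equiv.symm_apply_apply] at h1
      rw [h1]
    · have h2 : G.lf (G.nxt e) = true := by
        rw [G.lf_op _ (ho _)] at h
        simpa using h
      have h1 := corner_E h2 (ho _)
      rw [Equiv.symm_apply_apply] at h1
      rw [hκ, hκ, h1]
  have hlab : ∀ f, κ (Lf G (H.lab f)) = κ (Lf G f) := by
    intro f
    have h1 : ∀ (n : ℕ) g, κ (Lf G ((sc G.nxt G.op)^[n] g)) = κ (Lf G g) := by
      intro n g
      induction n with
      | zero => rfl
      | succ n ih => rw [Function.iterate_succ_apply', hsc, ih]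
    rw [← h1 (H.dep f + 1) (H.lab f), H.sc_iter_lab]
  intro h
  have h1 := hlab p
  have h2 := hlab (G.op p)
  rw [← h, h1] at h2
  cases hl : G.lf p with
  | true =>
    have h3 := corner_N hl
    have h4 := hκ p
    rw [h3] at h4
    omega
  | false =>
    have hl' : G.lf (G.op p) = true := by rw [G.lf_op _ (ho _), hl]; rfl
    have h3 := corner_N hl'
    rw [G.op_op] at h3
    have h4 := hκ (G.op p)
    rw [h3] at h4
    omega

end shadow

end Pool.Agent.Helper57.PD
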