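import Pool.Agent.Helper57.PD.TmG
import Pool.Agent.Helper41.PD.AdaptH3

/-!
# EV3: the bound in the annulus for plane shadows
-/

set_option autoImplicit false

namespace Pool.Agent.Helper57.PD

open Polynomial Pool.Agent.Helper85.Exp Pool.Agent.Helper60.EV2 Pool.Agent.Helper2.PD Pool.Agent.Helper16.PD
  Pool.Agent.Helper41.PD Pool.Agent.Helper27.EV2

/-- the cut, the boxes and a cut edge -/
theorem exists_data {P : Type} [Fintype P] {G : Sh P} {s : ℕ} (h : Good s G) (hne : Nonempty P) :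
    ∃ (C : Finset P) (τ : P → ℕ) (H : Cut G.nxt G.op C τ) (Bs : List (List P × List (P × ℕ))) (x0 : P),
      C.card ≤ s * s * s ∧ (spc G C).card ≤ 8 * s + 4 * (s * s * s) ∧
      Bs.length ≤ 2 * (8 * s + 4 * (s * s * s) + 1) * (s * s * s) ∧ SB H G.lf (spc G C) Bs ∧ x0 ∈ C := by
  obtain ⟨C, τ, H, Bs, h1, h2, h3, -, h5⟩ := shadow_boxes h.ho h.hc h.hp (sg G) (sg_apply G) h.hs
  obtain ⟨p⟩ := hne
  exact ⟨C, τ, H, Bs, H.lab p, h1, h2, h3, h5, H.lab_mem p⟩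

theorem crs_length {P : Type} [Fintype P] {G : Sh P} {C : Finset P} {τ : P → ℕ} {H : Cut G.nxt G.op C τ}
    {Bs : List (List P × List (P × ℕ))} (h : SB H G.lf (spc G C) Bs) : (Pool.Agent.Helper29.PD.crs Bs).length = Nat.card (Cr G) := by
  classical
  have h1 : (Pool.Agent.Helper29.PD.crs Bs).Nodup := by
    have h2 := h.srt
    refine List.Pairwise.imp ?_ h2
    rintro a b hab rfl
    exact lt_irrefl _ hab
  rw [← List.toFinset_card_of_nodup h1, Nat.card_eq_fintype_card, Fintype.card_subtype]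
  congr 1
  ext p
  rw [List.mem_toFinset, Finset.mem_filter]
  have h3 := h.all p
  exact ⟨fun hp => ⟨Finset.mem_univ _, h3.1 hp⟩, fun hp => h3.2 hp.2⟩

theorem h3_good (s : ℕ) (r₀ R : ℝ) (hr₀ : 0 < r₀) : ∃ c : ℝ, 0 < c ∧ ∃ C : ℝ, ∀ (P : Type) [Fintype P] (G : Sh P), Good s G →
      Nonempty P → ∀ nab : Dg G → ℤ[X], Cs nab → ∀ z : ℂ, r₀ ≤ ‖z‖ → ‖z‖ ≤ R → ∀ a : ℝ, 0 < a → a ^ 2 = ‖z‖ * a + 1 →
        ‖aeval z (nab (allPos G))‖ ≤ C * a ^ (Nat.card (Cr G)) *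
          Real.exp (-(c * (Nat.card (Cr G)) * (1 - Real.cos (2 * z.arg)))) := by
  obtain ⟨c, hc, C₀, HH⟩ := Pool.Agent.Helper29.PD.h3_cut (s * s * s) (2 * (8 * s + 4 * (s * s * s) + 1) * (s * s * s))
    (6 * s * s + s) (R := R) hr₀
  refine ⟨c, hc, C₀, ?_⟩
  intro P _ G hG hne nab hnab z hz1 hz2 a ha ha2
  classical
  obtain ⟨C, τ, H, Bs, x0, h1, h2, h3, h5, hx0⟩ := exists_data hG hne
  obtain ⟨α, nab', e, hn', hα, hwr, -, -⟩ := one_shadow hG (G.nxt x0)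
  have h6 := HH P G C τ H hG.ho h1 Bs h5.bxs h3 x0 hx0 (-α) (by rw [abs_neg]; exact hα) hwr nab (hnab.cw _) (allPos G)
    (fun i => rfl) z hz1 hz2 a ha ha2
  rw [crs_length h5] at h6
  exact h6

end Pool.Agent.Helper57.PD
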