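import Pool.Agent.Helper57.PD.Last
import Pool.Agent.Helper41.PD.Adapt

/-!
# EV3: the time order of the crossings around a regular face
-/

set_option autoImplicit false

namespace Pool.Agent.Helper57.PD

open Pool.Agent.Helper85.Exp Pool.Agent.Helper2.PD Pool.Agent.Helper16.PD Pool.Agent.Helper41.PD

variable {P : Type} [Fintype P] {G : Sh P} {C : Finset P} {τ : P → ℕ}

/-- a regular crossing: the face in front of it -/
theorem reg_face {p : P} (hp : G.lf p = true) (h : p ∉ spc G C) :
    kf G (Rf G p) = 1 ∧ (∀ e ∈ C, Lf G e ≠ Rf G p ∧ Rf G e ≠ Rf G p) := by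
  classical
  have h1 : ¬ ((kf G (Rf G p) ≠ 1 ∨ ∃ e ∈ C, Lf G e = Rf G p ∨ Rf G e = Rf G p) ∨
      (kf G (Lf G (G.nxt.symm p)) ≠ 1 ∨
        ∃ e ∈ C, Lf G e = Lf G (G.nxt.symm p) ∨ Rf G e = Lf G (G.nxt.symm p))) := by
    intro h'
    exact h (Finset.mem_filter.2 ⟨Finset.mem_univ _, hp, h'⟩)
  push Not at h1
  exact h1.1

/-- all edges around the face in front of a regular crossing are later -/
theorem face_time (ho : ∀ i, G.op i ≠ i) (H : Cut G.nxt G.op C τ) {p : P} (hp : G.lf p = true) (h : p ∉ spc G C) :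
    ∀ e, (Lf G e = Rf G p ∨ Rf G e = Rf G p) → τ p ≤ τ e := by
  obtain ⟨h1, h2⟩ := reg_face hp h
  obtain ⟨q, ⟨hq, hq2⟩, hq3⟩ := kf_one_N h1
  have hqp : q = p := (hq3 p hp rfl).symm
  subst hqp
  intro e
  induction hn : τ e using Nat.strong_induction_on generalizing e with
  | _ n ih =>
    have hlf : ∀ i, G.lf i = false → G.lf (G.op i) = true := fun i hi => by
      rw [G.lf_op _ (ho _), hi]; rfl
    rintro (he | he)
    · cases hl : G.lf e with
      | true =>
        have h3 : Lf G e = Lf G (pr G.nxt G.op e) := corner_W hl (ho e)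
        have h4 : pr G.nxt G.op e ∉ C := fun hm => (h2 _ hm).1 (by rw [← h3, he])
        have h5 := H.τ_pr h4
        have h6 := ih _ (by omega) (pr G.nxt G.op e) rfl (Or.inl (by rw [← h3, he]))
        omega
      | false =>
        have h3 := corner_N (hlf e hl)
        rw [G.op_op] at h3
        have h4 := hq3 (G.op e) (hlf e hl) (by rw [h3, he])
        rw [← h4, H.τ_op]
        omega
    · cases hl : G.lf e with
      | true =>
        have h4 := hq3 e hl he
        rw [← h4]
        omega
      | false =>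
        have h3 := corner_E (hlf e hl) (ho _)
        rw [G.op_op] at h3
        have h4 : pr G.nxt G.op e ∉ C := fun hm => (h2 _ hm).2 (by
          show Rf G (G.nxt.symm (G.op e)) = _
          rw [h3, he])
        have h5 := H.τ_pr h4
        have h6 := ih _ (by omega) (pr G.nxt G.op e) rfl (Or.inr (by
          show Rf G (G.nxt.symm (G.op e)) = _
          rw [h3, he]))
        omega

theorem tm_of {s : ℕ} (h : Good s G) (H : Cut G.nxt G.op C τ) {x0 : P} (hx0 : x0 ∈ C) :
    (fdG h (G.nxt x0)).Tm (fun x => x.1 ∈ spc G C) (fun x => τ x.1) where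
  base := by
    intro x hx
    obtain ⟨h1, h2⟩ := reg_face x.2 hx
    have h3 := h2 x0 hx0
    show Rf G x.1 ≠ Lf G (G.nxt.symm (G.nxt x0)) ∧ Rf G x.1 ≠ Rf G (G.nxt.symm (G.nxt x0))
    rw [Equiv.symm_apply_apply]
    exact ⟨h3.1.symm, h3.2.symm⟩
  uniq := by
    intro x y hx hxy
    obtain ⟨h1, h2⟩ := reg_face x.2 hx
    obtain ⟨q, -, hq⟩ := kf_one_N h1
    have hxy' : Rf G y.1 = Rf G x.1 := hxy
    exact Subtype.ext ((hq y.1 y.2 hxy').trans (hq x.1 x.2 rfl).symm)
  up := by
    intro x y hx _ hxy
    obtain ⟨h1, h2⟩ := reg_face x.2 hx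
    have ht := face_time h.ho H x.2 hx
    have key : ∀ e, e ∉ C → (Lf G e = Rf G x.1 ∨ Rf G e = Rf G x.1) → G.nxt e = y.1 ∨ G.nxt e = G.op y.1 → τ x.1 < τ y.1 := by
      intro e he hf hn
      have h3 := ht e hf
      have h4 := H.mono e he
      rcases hn with hn | hn
      · rw [hn] at h4
        omega
      · rw [hn, H.τ_op] at h4
        omega
    rcases hxy with hxy | hxy | hxy
    · have e1 : Lf G (G.nxt.symm y.1) = Rf G x.1 := hxy
      exact key _ (fun hm => (h2 _ hm).1 e1) (Or.inl e1) (Or.inl (by simp))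
    · have e1 : Lf G y.1 = Rf G x.1 := hxy
      rw [corner_W y.2 (h.ho _)] at e1
      exact key _ (fun hm => (h2 _ hm).1 e1) (Or.inl e1) (Or.inr (by simp))
    · have e1 : Rf G (G.op y.1) = Rf G x.1 := hxy
      rw [← corner_E y.2 (h.ho _)] at e1
      exact key _ (fun hm => (h2 _ hm).2 e1) (Or.inr e1) (Or.inl (by simp))

/-- a face which is not in front of a regular crossing is in front of a special crossing or it lies at a cut edge -/
theorem special_face (ho : ∀ i, G.op i ≠ i) (H : Cut G.nxt G.op C τ) (f : Face G)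
    (hf : ∀ x : Cr G, x.1 ∉ spc G C → Rf G x.1 ≠ f) :
    (∃ x : Cr G, x.1 ∈ spc G C ∧ Rf G x.1 = f) ∨ ∃ e ∈ C, Lf G e = f ∨ Rf G e = f := by
  classical
  by_cases h1 : ∃ x : Cr G, Rf G x.1 = f
  · obtain ⟨x, hx⟩ := h1
    left
    refine ⟨x, ?_, hx⟩
    by_contra h2
    exact hf x h2 hx
  · right
    push Not at h1
    -- no crossing has this face in front: go back along an edge of the face to a cut edge
    have hlf : ∀ i, G.lf i = false → G.lf (G.op i) = true := fun i hi => by
      rw [G.lf_op _ (ho _), hi]; rfl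
    have key : ∀ n : ℕ, ∀ e, τ e = n → (Lf G e = f ∨ Rf G e = f) → ∃ e ∈ C, Lf G e = f ∨ Rf G e = f := by
      intro n
      induction n using Nat.strong_induction_on with
      | _ n ih =>
        intro e hn he
        have hback : (Lf G (pr G.nxt G.op e) = f ∨ Rf G (pr G.nxt G.op e) = f) → ∃ e ∈ C, Lf G e = f ∨ Rf G e = f := by
          intro h2
          by_cases h3 : pr G.nxt G.op e ∈ C
          · exact ⟨_, h3, h2⟩
          · have h4 := H.τ_pr h3
            exact ih _ (by omega) _ rfl h2
        cases hl : G.lf e with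
        | true =>
          rcases he with he | he
          · exact hback (Or.inl (by
              show Lf G (G.nxt.symm (G.op e)) = _
              rw [← corner_W hl (ho e), he]))
          · exact absurd he (h1 ⟨e, hl⟩)
        | false =>
          rcases he with he | he
          · have h3 := corner_N (hlf e hl)
            rw [G.op_op] at h3
            exact absurd (h3.trans he) (h1 ⟨G.op e, hlf e hl⟩)
          · exact hback (Or.inr (by
              have h3 := corner_E (hlf e hl) (ho _)
              rw [G.op_op] at h3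
              show Rf G (G.nxt.symm (G.op e)) = _
              rw [h3, he]))
    revert hf h1 key
    refine face_ind (p := fun f => (∀ x : Cr G, x.1 ∉ spc G C → Rf G x.1 ≠ f) → (∀ x : Cr G, Rf G x.1 ≠ f) →
      (∀ n : ℕ, ∀ e, τ e = n → (Lf G e = f ∨ Rf G e = f) → ∃ e ∈ C, Lf G e = f ∨ Rf G e = f) →
      ∃ e ∈ C, Lf G e = f ∨ Rf G e = f) ?_ ?_ f
    · intro i _ _ key
      exact key _ i rfl (Or.inl rfl)
    · intro i _ _ key
      exact key _ i rfl (Or.inr rfl)

end Pool.Agent.Helper57.PD
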