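import Pool.Agent.Helper2.PD.Corners

/-!
# EV3: the exponent is bounded by the number of the Seifert circles
-/

set_option autoImplicit false

namespace Pool.Agent.Helper57.PD

open Pool.Agent.Helper85.Exp Pool.Agent.Helper2.PD

/-- The index of the faces takes at most `s + 1` consecutive values. Abstract form: `E` edges, `F` faces. -/
theorem range_kappa {E F : Type} [Finite E] (L R : E → F) (κ : F → ℤ) (hκ : ∀ e, κ (L e) = κ (R e) + 1)
    (hcon : ∀ p : F → Prop, (∀ e, p (L e) ↔ p (R e)) → ∀ f g, p f → p g) (σ : Equiv.Perm E)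
    (hσ : ∀ e, κ (L (σ e)) = κ (L e)) {s : ℕ}
    (hs : Nat.card (Quotient (Equiv.Perm.SameCycle.setoid σ)) ≤ s) (f g : F) : κ f - κ g ≤ s := by
  classical
  have hz : ∀ n : ℤ, ∀ e, κ (L ((σ ^ n) e)) = κ (L e) := by
    have hN : ∀ n : ℕ, ∀ e, κ (L ((σ ^ n) e)) = κ (L e) := by
      intro n
      induction n with
      | zero => intro e; simp
      | succ n ih =>
        intro e
        rw [pow_succ', Equiv.Perm.mul_apply, hσ, ih]
    intro n e
    cases n with
    | ofNat n => simpa using hN n e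
    | negSucc n =>
      have h1 := hN (n + 1) ((σ ^ Int.negSucc n) e)
      rw [← h1, zpow_negSucc, ← Equiv.Perm.mul_apply, mul_inv_cancel]
      rfl
  have hf : ∀ e e', Equiv.Perm.SameCycle σ e e' → κ (L e) = κ (L e') := by
    rintro e e' ⟨n, rfl⟩
    exact (hz n e).symm
  let q : Quotient (Equiv.Perm.SameCycle.setoid σ) → ℤ := Quotient.lift (fun e => κ (L e)) fun a b h => hf a b h
  haveI : Fintype (Quotient (Equiv.Perm.SameCycle.setoid σ)) := Fintype.ofFinite _
  have h1 : Finset.Ioc (κ g) (κ f) ⊆ Finset.univ.image q := by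
    intro v hv
    rw [Finset.mem_Ioc] at hv
    by_contra hcon2
    have h2 : ∀ e, κ (L e) ≠ v := by
      intro e he
      exact hcon2 (Finset.mem_image.2 ⟨Quotient.mk _ e, Finset.mem_univ _, he⟩)
    have h3 := hcon (fun f => v ≤ κ f) (fun e => by
      have h4 := h2 e
      have h5 := hκ e
      constructor <;> intro h6 <;> omega) f g hv.2
    omega
  have h2 := Finset.card_le_card h1
  have h3 : (Finset.univ.image q).card ≤ s := by
    refine Finset.card_image_le.trans ?_
    rw [Finset.card_univ, ← Nat.card_eq_fintype_card]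
    exact hs
  rw [Int.card_Ioc] at h2
  have := Int.self_le_toNat (κ f - κ g)
  omega

variable {P : Type} [Fintype P] {G : Sh P}

/-- The index of the left face is constant along the Seifert circles. -/
theorem kappa_seifert (ho : ∀ i, G.op i ≠ i) (κ : Face G → ℤ) (hκ : ∀ i, κ (Lf G i) = κ (Rf G i) + 1) (e : P) :
    κ (Lf G (G.op (G.nxt e))) = κ (Lf G e) := by
  cases hl : G.lf (G.nxt e) with
  | true =>
    have h1 := corner_S hl
    have h2 := corner_N hl
    have h3 := corner_W hl (ho _)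
    rw [Equiv.symm_apply_apply] at h1
    have h4 := hκ (G.nxt e)
    have h5 := hκ (G.nxt.symm (G.op (G.nxt e)))
    rw [← h2, h1]
    rw [h3] at h4
    omega
  | false =>
    have hl' : G.lf (G.op (G.nxt e)) = true := by rw [G.lf_op _ (ho _), hl]; rfl
    have h3 := corner_W hl' (ho _)
    rw [G.op_op, Equiv.symm_apply_apply] at h3
    rw [h3]

/-- The index of the faces takes at most `s + 1` consecutive values. -/
theorem kappa_le (hc : Conn G) (ho : ∀ i, G.op i ≠ i) (κ : Face G → ℤ) (hκ : ∀ i, κ (Lf G i) = κ (Rf G i) + 1)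
    (σ : Equiv.Perm P) (hσ : ∀ e, σ e = G.op (G.nxt e)) {s : ℕ}
    (hs : Nat.card (Quotient (Equiv.Perm.SameCycle.setoid σ)) ≤ s) (f g : Face G) : |κ f - κ g| ≤ s := by
  have key : ∀ f g, κ f - κ g ≤ s := fun f g => range_kappa (Lf G) (Rf G) κ hκ
    (fun p hp f g hf => face_conn hc ho hp hf g) σ (fun e => by rw [hσ]; exact kappa_seifert ho κ hκ e) hs f g
  rw [abs_le]
  have h1 := key f g
  have h2 := key g f
  constructor <;> omega

/-- **The bound of the exponent.** -/
theorem alpha_le (hc : Conn G) (ho : ∀ i, G.op i ≠ i) (hpl : Planar G) (κ : Face G → ℤ)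
    (hκ : ∀ i, κ (Lf G i) = κ (Rf G i) + 1) (σ : Equiv.Perm P) (hσ : ∀ e, σ e = G.op (G.nxt e)) {s : ℕ}
    (hs : Nat.card (Quotient (Equiv.Perm.SameCycle.setoid σ)) ≤ s) [Fintype (Face G)] [DecidableEq (Face G)]
    (f₁ f₂ : Face G) (hne : f₁ ≠ f₂) :
    |(∑ f ∈ Finset.univ.filter (fun f : Face G => f ≠ f₁ ∧ f ≠ f₂), κ f) -
      ∑ x ∈ Finset.univ.filter (fun x : P => G.lf x = true), κ (Rf G x)| ≤ 6 * s * s + s := by
  classical
  have hk := kappa_le hc ho κ hκ σ hσ hs
  have e1 : ∑ x ∈ Finset.univ.filter (fun x : P => G.lf x = true), κ (Rf G x) = ∑ f : Face G, (kf G f : ℤ) * κ f := by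
    rw [← Finset.sum_fiberwise' (Finset.univ.filter fun x : P => G.lf x = true) (fun x => Rf G x) κ]
    refine Finset.sum_congr rfl fun f _ => ?_
    rw [Finset.sum_const, nsmul_eq_mul, kf, Nat.card_eq_fintype_card, Fintype.card_subtype, Finset.filter_filter]
  have e2 : Finset.univ.filter (fun f : Face G => f ≠ f₁ ∧ f ≠ f₂) = (Finset.univ.erase f₁).erase f₂ := by
    ext f
    simp [and_comm]
  have e3 : ∀ h : Face G → ℤ, ∑ f ∈ Finset.univ.filter (fun f : Face G => f ≠ f₁ ∧ f ≠ f₂), h f =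
      (∑ f, h f) - h f₁ - h f₂ := by
    intro h
    rw [e2]
    have a1 := Finset.add_sum_erase (Finset.univ.erase f₁) h (a := f₂) (by simp [hne.symm])
    have a2 := Finset.add_sum_erase Finset.univ h (a := f₁) (Finset.mem_univ _)
    linarith
  have e4 : (∑ f : Face G, (kf G f : ℤ)) + 2 = Fintype.card (Face G) := by exact_mod_cast sum_kf ho hpl
  rw [e1, e3]
  have e5 : (∑ f : Face G, κ f) - κ f₁ - κ f₂ - ∑ f : Face G, (kf G f : ℤ) * κ f =
      (∑ f : Face G, (1 - (kf G f : ℤ)) * (κ f - κ f₁)) - (κ f₂ - κ f₁) := by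
    have a1 : ∑ f : Face G, (1 - (kf G f : ℤ)) * (κ f - κ f₁) = (∑ f : Face G, κ f) - Fintype.card (Face G) * κ f₁ -
        (∑ f : Face G, (kf G f : ℤ) * κ f) + (∑ f : Face G, (kf G f : ℤ)) * κ f₁ := by
      have a2 : (Fintype.card (Face G) : ℤ) * κ f₁ = ∑ _f : Face G, κ f₁ := by
        rw [Finset.sum_const, nsmul_eq_mul, Finset.card_univ]
      rw [a2, Finset.sum_mul, ← Finset.sum_sub_distrib, ← Finset.sum_sub_distrib, ← Finset.sum_add_distrib]
      exact Finset.sum_congr rfl fun f _ => by ring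
    rw [a1, ← e4]
    ring
  rw [e5]
  have e6 : |∑ f : Face G, (1 - (kf G f : ℤ)) * (κ f - κ f₁)| ≤ 6 * s * s := by
    refine (Finset.abs_sum_le_sum_abs _ _).trans ?_
    have a1 : ∀ f : Face G, |(1 - (kf G f : ℤ)) * (κ f - κ f₁)| ≤
        ((if kf G f = 0 then 1 else 0) + (if kf G f ≠ 1 then (kf G f : ℤ) else 0)) * s := by
      intro f
      rw [abs_mul]
      refine mul_le_mul ?_ (hk f f₁) (abs_nonneg _) (by positivity)
      by_cases h0 : kf G f = 0
      · rw [h0]; simp
      · by_cases h1 : kf G f = 1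
        · rw [h1]; simp
        · rw [if_neg h0, if_pos h1, abs_le]
          constructor <;> omega
    refine (Finset.sum_le_sum fun f _ => a1 f).trans ?_
    rw [← Finset.sum_mul, Finset.sum_add_distrib]
    have a2 : ∑ f : Face G, (if kf G f = 0 then (1 : ℤ) else 0) ≤ 2 * s := by
      rw [← Finset.sum_filter, Finset.sum_const, nsmul_eq_mul, mul_one]
      exact_mod_cast zero_card ho σ hσ hs
    have a3 : ∑ f : Face G, (if kf G f ≠ 1 then (kf G f : ℤ) else 0) ≤ 4 * s := by
      rw [← Finset.sum_filter]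
      exact_mod_cast sum_big ho hpl σ hσ hs
    nlinarith
  have e7 := hk f₂ f₁
  refine (abs_sub _ _).trans ?_
  linarith

end Pool.Agent.Helper57.PD
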