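import Pool.Agent.Helper57.PD.Core
import Pool.Agent.Helper57.PD.Alpha
import Pool.Agent.Helper76.PD.RevFa
import Pool.Agent.Helper60.PD.Exist

/-!
# EV3: the last assembly for plane shadows
-/

set_option autoImplicit false

namespace Pool.Agent.Helper57.PD

open Polynomial Pool.Agent.Helper85.Exp Pool.Agent.Helper60.EV2 Pool.Agent.Helper27.EV2 Pool.Agent.Helper2.PD
  Pool.Agent.Helper16.PD Matrix

/-- the Seifert successor on the edges (an edge is named after the passage which it leaves) -/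
def sg {P : Type} (G : Sh P) : Equiv.Perm P :=
  G.nxt.trans ⟨G.op, G.op, G.op_op, G.op_op⟩

theorem sg_apply {P : Type} (G : Sh P) (e : P) : sg G e = G.op (G.nxt e) := rfl

/-- the number of the Seifert circles -/
noncomputable def circ {P : Type} (G : Sh P) : ℕ := Nat.card (Quotient (Equiv.Perm.SameCycle.setoid (sg G)))

/-- the class of the shadows -/
structure Good {P : Type} (s : ℕ) (G : Sh P) : Prop where
  ho : ∀ i, G.op i ≠ i
  hc : Pool.Agent.Helper2.PD.Conn G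
  hp : Planar G
  hs : circ G ≤ s

section one

variable {P : Type} {G : Sh P} [Fintype P]

theorem Good.card {s : ℕ} (h : Good s G) : Nat.card (Face G) = Nat.card (Cr G) + 2 := by
  have h1 := Pool.Agent.Helper2.PD.card_P G h.ho
  have h2 : 2 * Nat.card (Face G) = Nat.card P + 4 := h.hp
  have h3 : Nat.card (Cr G) = Nat.card (Xg G) := rfl
  omega

theorem Good.ne {s : ℕ} (h : Good s G) (i : P) : Lf G i ≠ Rf G i := by
  obtain ⟨k, hk⟩ := exists_kappa h.hc h.ho h.hp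
  intro e
  have := hk i
  rw [e] at this
  omega

/-- the face data of a plane shadow with the base passage `b` -/
def fdG {s : ℕ} (h : Good s G) (b : P) : Fd (Cr G) (Face G) where
  N x := Rf G x.1
  S x := Lf G (G.nxt.symm x.1)
  W x := Lf G x.1
  E x := Rf G (G.op x.1)
  f₁ := Lf G (G.nxt.symm b)
  f₂ := Rf G (G.nxt.symm b)
  ne := h.ne _
  card := h.card

end one

/-- a shadow of the class with a base passage -/
structure Ob (s : ℕ) where
  P : Type
  fP : Fintype P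
  G : Sh P
  good : Good s G
  b : P

attribute [instance] Ob.fP

open Classical in
/-- everything which is known about one shadow -/
theorem one_shadow {P : Type} [Fintype P] {s : ℕ} {G : Sh P} (h : Good s G) (b : P) :
    ∃ (α : ℤ) (nab : Dg G → ℤ[X]) (e : Cr G ≃ (fdG h b).Col), Cs nab ∧ |α| ≤ ((6 * s * s + s : ℕ) : ℤ) ∧
      (∀ D : Dg G, (∀ i, ∃ k : ℕ, D.tr^[k] b = i) → Des D b → wr D = -α) ∧
      (∀ z : ℂ, z ≠ 0 → W G.nxt G.op (kd z z⁻¹ (allPos G)) b =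
        z ^ ((Nat.card (Cr G) : ℤ) + α) * aeval (z⁻¹ - z) (nab (allPos G))) ∧
      (∀ z : ℂ, z ≠ 0 → ‖W G.nxt G.op (kd z z⁻¹ (allPos G)) b‖ =
        ‖z‖ ^ α * ‖(((fdG h b).A (z ^ 2) (-z) (-z)).submatrix id e).det‖) := by
  haveI : Fintype (Face G) := Fintype.ofFinite _
  obtain ⟨κ, hκ⟩ := exists_kappa h.hc h.ho h.hp
  let A : Fa G (Face G) := faceFa G h.ho
  obtain ⟨ε⟩ := A.card_Fr κ hκ b (card_face G h.ho h.hp)
  obtain ⟨c, hc, hW⟩ := dehn A h.hc κ hκ b ε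
  obtain ⟨α, hα⟩ : ∃ α : ℤ, α = (∑ y : Cr G, κ (ε y).1) - ∑ x : Cr G, κ (A.R x.1) := ⟨_, rfl⟩
  have hwr : ∀ D : Dg G, (∀ i, ∃ k : ℕ, D.tr^[k] b = i) → Des D b → wr D = -α := by
    intro D h1 h2
    rw [hα]
    exact Pool.Agent.Helper76.PD.wr_des A h.hc κ hκ b ε D h1 h2
  obtain ⟨nab, hn, -⟩ := Pool.Agent.Helper60.PD.exists_unique h.hc h.ho h.hp b (-α) hwr
  have hwp : wr (allPos G) = Nat.card (Cr G) := by
    rw [Pool.Agent.Helper16.PD.wr_eq A]
    show ∑ x : Cr G, (1 : ℤ) = _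
    rw [Finset.sum_const, Finset.card_univ, Nat.card_eq_fintype_card]
    simp
  let ε' : Cr G ≃ (fdG h b).Col := ε
  refine ⟨α, nab, ε', hn, ?_, hwr, ?_, ?_⟩
  · have h1 := alpha_le h.hc h.ho h.hp κ hκ (sg G) (sg_apply G) h.hs (Lf G (G.nxt.symm b)) (Rf G (G.nxt.symm b)) (h.ne _)
    have e1 : ∑ y : Cr G, κ (ε y).1 = ∑ f ∈ Finset.univ.filter (fun f : Face G => f ≠ Lf G (G.nxt.symm b) ∧
        f ≠ Rf G (G.nxt.symm b)), κ f := by
      rw [Equiv.sum_comp ε (fun f => κ f.1)]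
      exact (Finset.sum_subtype _ (fun x => by simp; exact Iff.rfl) (fun f => κ f)).symm
    have e2 : ∑ x : Cr G, κ (A.R x.1) = ∑ x ∈ Finset.univ.filter (fun x : P => G.lf x = true), κ (Rf G x) :=
      (Finset.sum_subtype _ (fun x => by simp) (fun x => κ (Rf G x))).symm
    rw [hα, e1, e2]
    refine h1.trans ?_
    push_cast
    exact le_rfl
  · intro z hz
    have h1 := conway_formula (Units.mk0 z hz) b (-α) hwr (hn.cw b) (allPos G)
    rw [hwp] at h1
    have e1 : (((Units.mk0 z hz) ^ (-α - (Nat.card (Cr G) : ℤ)) : ℂˣ) : ℂ) = z ^ (-α - (Nat.card (Cr G) : ℤ)) := by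
      rw [Units.val_zpow_eq_zpow_val]
      rfl
    rw [e1, Units.val_inv_eq_inv_val] at h1
    simp only [Units.val_mk0] at h1
    rw [h1, ← mul_assoc, ← zpow_add₀ hz]
    have e2 : (Nat.card (Cr G) : ℤ) + α + (-α - (Nat.card (Cr G) : ℤ)) = 0 := by ring
    rw [e2, zpow_zero, one_mul]
  · intro z hz
    have h1 := hW ℂ (Units.mk0 z hz) (allPos G)
    rw [← hα, hwp] at h1
    have e1 : (((Units.mk0 z hz) ^ (α + (Nat.card (Cr G) : ℤ)) : ℂˣ) : ℂ) = z ^ (α + (Nat.card (Cr G) : ℤ)) := by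
      rw [Units.val_zpow_eq_zpow_val]
      rfl
    rw [e1, Units.val_inv_eq_inv_val] at h1
    simp only [Units.val_mk0] at h1
    rw [h1]
    have e3 : (((fdG h b).A (z ^ 2) (-z) (-z)).submatrix id ε') =
        z • (Matrix.of fun x y : Cr G => A.dn z z⁻¹ (allPos G) x (ε y).1) := by
      ext x y
      rw [Matrix.smul_apply, Matrix.of_apply, Matrix.submatrix_apply]
      show (Pi.single (ε y).1 (1 : ℂ) : Face G → ℂ) (Rf G x.1) + z ^ 2 * (Pi.single (ε y).1 (1 : ℂ) : Face G → ℂ) (Lf G (G.nxt.symm x.1)) +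
        -z * (Pi.single (ε y).1 (1 : ℂ) : Face G → ℂ) (Lf G x.1) + -z * (Pi.single (ε y).1 (1 : ℂ) : Face G → ℂ) (Rf G (G.op x.1)) =
        z • ((if A.R x.1 = (ε y).1 then z⁻¹ else 0) + (if A.L (G.nxt.symm x.1) = (ε y).1 then z else 0) - (if A.L x.1 = (ε y).1 then 1 else 0) -
          if A.R (G.op x.1) = (ε y).1 then 1 else 0)
      have p1 : ∀ f : Face G, (Pi.single (ε y).1 (1 : ℂ) : Face G → ℂ) f = if f = (ε y).1 then 1 else 0 := by
        intro f
        rw [Pi.single_apply]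
      rw [p1, p1, p1, p1, smul_eq_mul]
      show _ = z * ((if Rf G x.1 = (ε y).1 then z⁻¹ else 0) + (if Lf G (G.nxt.symm x.1) = (ε y).1 then z else 0) - (if Lf G x.1 = (ε y).1 then 1 else 0) -
          if Rf G (G.op x.1) = (ε y).1 then 1 else 0)
      split_ifs <;> field_simp <;> ring
    rw [e3, Matrix.det_smul, norm_mul, norm_mul, norm_mul, norm_pow, norm_zpow]
    have e4 : ‖(c : ℂ)‖ = 1 := by
      rcases hc with h | h <;> rw [h] <;> simp
    have hz0 : ‖z‖ ≠ 0 := norm_ne_zero_iff.2 hz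
    rw [e4, one_mul, ← mul_assoc]
    congr 1
    rw [zpow_add₀ hz0, zpow_natCast, Nat.card_eq_fintype_card]

/-- **The last assembly**, from the bounds of the face potentials and the bound in the annulus. -/
theorem last_of (s : ℕ)
    (bd : ∀ Φ : ℝ, 0 < Φ → ∃ N : ℕ, ∃ th : ℝ, 0 < th ∧ ∃ K : ℝ, 0 < K ∧ ∀ (P : Type) [Fintype P] (G : Sh P) (h : Good s G)
      (b : P), ∃ (sp : Cr G → Prop) (tau : Cr G → ℕ), (fdG h b).Tm sp tau ∧ Nat.card {x // sp x} ≤ N ∧
        ∀ x y : ℝ, 0 < x → x ≤ Φ → |y| ≤ th → (fdG h b).Lower sp (ss x y) x K ∧ (fdG h b).Upper sp (ss x y) K)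
    (h3 : ∀ r₀ R : ℝ, 0 < r₀ → 0 < R → ∃ c : ℝ, 0 < c ∧ ∃ C : ℝ, ∀ (P : Type) [Fintype P] (G : Sh P), Good s G →
      Nonempty P → ∀ nab : Dg G → ℤ[X], Cs nab → ∀ z : ℂ, r₀ ≤ ‖z‖ → ‖z‖ ≤ R → ∀ a : ℝ, 0 < a → a ^ 2 = ‖z‖ * a + 1 →
        ‖aeval z (nab (allPos G))‖ ≤ C * a ^ (Nat.card (Cr G)) *
          Real.exp (-(c * (Nat.card (Cr G)) * (1 - Real.cos (2 * z.arg))))) :
    ∃ m₀ : ℕ, ∀ (P : Type) [Fintype P] (G : Sh P), Good s G → m₀ ≤ Nat.card (Cr G) →
      ∀ nab : Dg G → ℤ[X], Cs nab → ∀ k : ℕ,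
        (nab (allPos G)).coeff k * (nab (allPos G)).coeff (k + 4) ≤ (nab (allPos G)).coeff (k + 2) ^ 2 := by
  classical
  choose α nab e hn hα hwr hform hA using fun o : Ob s => one_shadow o.good o.b
  have hne : ∀ o : Ob s, Nonempty o.P := fun o => ⟨o.b⟩
  letI : ∀ o : Ob s, Fintype (Face o.G) := fun o => Fintype.ofFinite _
  obtain ⟨m₀, hm₀⟩ := ev3_core (ι := Ob s) (fun o => o.P) (fun o => o.G) (fun o => o.b) (fun o => Nat.card (Cr o.G)) α
    (fun o => nab o (allPos o.G)) (6 * s * s + s)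
    (fun o => by haveI := hne o; exact (Pool.Agent.Helper60.PD.nab_nn o.good.ho (hn o)).1)
    (fun o => by haveI := hne o; exact (Pool.Agent.Helper60.PD.nab_nn o.good.ho (hn o)).2.2)
    (fun o => by
      haveI := hne o
      have h1 := (Pool.Agent.Helper60.PD.nab_nn o.good.ho (hn o)).2.1
      have h2 := Pool.Agent.Helper2.PD.card_P o.G o.good.ho
      have h4 : Nat.card (Cr o.G) = Nat.card (Xg o.G) := rfl
      omega)
    (fun o z hz => hform o z hz) (fun o => hα o)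
    (fun o => Cr o.G) (fun o => Face o.G) (fun o => fdG o.good o.b) e
    (fun o z hz => by rw [hA o z hz])
    (fun Φ hΦ => by
      obtain ⟨N, th, hth, K, hK, hb⟩ := bd Φ hΦ
      exact ⟨N, th, hth, K, hK, fun o => hb o.P o.G o.good o.b⟩)
    (fun r₀ R hr₀ hR => by
      obtain ⟨c, hc, C, hC⟩ := h3 r₀ R hr₀ hR
      exact ⟨c, hc, C, fun o z h1 h2 a ha ha2 => hC o.P o.G o.good ⟨o.b⟩ (nab o) (hn o) z h1 h2 a ha ha2⟩)
  refine ⟨max m₀ 1, fun P _ G hG hm nab' hnab' k => ?_⟩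
  have h1 : 0 < Nat.card (Cr G) := by
    have := le_trans (le_max_right _ _) hm
    omega
  haveI : Nonempty (Cr G) := (Nat.card_pos_iff.1 h1).1
  obtain ⟨b⟩ : Nonempty P := ⟨(Classical.arbitrary (Cr G)).1⟩
  haveI : Nonempty P := ⟨b⟩
  let o : Ob s := ⟨P, inferInstance, G, hG, b⟩
  have h2 : nab' = nab o := Cs.unique hnab' (hn o)
  rw [h2]
  exact hm₀ o (le_trans (le_max_left _ _) hm) k

end Pool.Agent.Helper57.PD
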