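import Pool.Agent.Helper30.EV3.Net

/-!
# EV3: the upper bound for a network of boxes on labelled arcs

The same data as in `Pool.Agent.Helper30.EV3.Net`; all values of the first slice are at most `M`; a regular box is the exact evaluation, in a special box a value
is new and at most `M` or it is unchanged. No connectivity and no closing condition is needed.
-/

set_option autoImplicit false

namespace Pool.Agent.Helper57.PD

open Pool.Agent.Helper78.EV2 Pool.Agent.Helper78.EV Pool.Agent.Helper30.EV3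

variable {ι : Type*}

/-- A box between two slices: a regular box or a special box. -/
structure Bu (s : ℂ) (M : ℝ) (ch : List ι) (w : List ℕ) (eL eR eL' eR' : ι → ℂ) : Prop where
  nd : ch.Nodup
  hw : ∀ k ∈ w, k + 1 < ch.length
  out : ∀ i, i ∉ ch → eL' i = eL i ∧ eR' i = eR i
  adj : ∀ (j : ℕ) (h : j + 1 < ch.length), eR ch[j] = eL ch[j + 1]
  adj' : ∀ (j : ℕ) (h : j + 1 < ch.length), eR' ch[j] = eL' ch[j + 1]
  run : (∀ j ≤ ch.length, gp eL' eR' ch j = Ev s w (gp eL eR ch) j) ∨
    ∀ j ≤ ch.length, ‖gp eL' eR' ch j‖ ≤ M ∨ gp eL' eR' ch j = gp eL eR ch j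

theorem net_up (N : ℕ) (Phi : ℝ) (hPhi : 0 < Phi) : ∃ th > 0, ∃ K > 0, ∀ x y : ℝ, 0 < x → x ≤ Phi → |y| ≤ th →
    ∀ (ι : Type) [Fintype ι] (T : ℕ) (M : ℝ) (bx : ℕ → List ι × List ℕ) (eL eR : ℕ → ι → ℂ), Fintype.card ι ≤ N →
      T ≤ N → 0 ≤ M →
      (∀ t < T, Bu (ss x y) M (bx t).1 (bx t).2 (eL t) (eR t) (eL (t + 1)) (eR (t + 1))) →
      (∀ i, ‖eL 0 i‖ ≤ M ∧ ‖eR 0 i‖ ≤ M) →
      ∀ t ≤ T, ∀ i, ‖eL t i‖ ≤ K * M ∧ ‖eR t i‖ ≤ K * M := by
  obtain ⟨th, hth, de, hde, K, hK, H⟩ := run_lemma N Phi hPhi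
  obtain ⟨Q, hQ⟩ : ∃ Q, Q = 1 + K + K ^ 2 := ⟨_, rfl⟩
  have hQ1 : 1 ≤ Q := by rw [hQ]; nlinarith [sq_nonneg K]
  refine ⟨th, hth, Q ^ N, by positivity, ?_⟩
  intro x y hx hxP hy ι _ T M bx eL eR hcard hT hM hbox h0
  have key : ∀ t ≤ T, ∀ i, ‖eL t i‖ ≤ Q ^ t * M ∧ ‖eR t i‖ ≤ Q ^ t * M := by
    intro t
    induction t with
    | zero => intro _ i; simpa using h0 i
    | succ t ih =>
      intro ht i
      have ih' := ih (by omega)
      have hb := hbox t (by omega)
      obtain ⟨V, hV⟩ : ∃ V, V = Q ^ t * M := ⟨_, rfl⟩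
      have hV0 : 0 ≤ V := by rw [hV]; positivity
      have hMV : M ≤ V := by
        rw [hV]
        exact le_mul_of_one_le_left hM (one_le_pow₀ hQ1)
      have hVQ : V ≤ Q ^ (t + 1) * M := by
        rw [hV, pow_succ]
        have : 0 ≤ Q ^ t * M := by positivity
        nlinarith
      rw [← hV] at ih'
      by_cases hi : i ∈ (bx t).1
      · obtain ⟨j, hj, rfl⟩ := List.getElem_of_mem hi
        have hg : ∀ j ≤ (bx t).1.length, ‖gp (eL (t + 1)) (eR (t + 1)) (bx t).1 j‖ ≤ Q ^ (t + 1) * M := by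
          intro j hj
          rcases hb.run with h | h
          · rw [h j hj]
            have hm : (bx t).1.length ≤ N := (List.Nodup.length_le_card hb.nd).trans hcard
            obtain ⟨p, e, he, a1, a2, a3, a4, a5, a6⟩ := H x y hx hxP hy (bx t).1.length hm (bx t).2
              (fun k hk => by have := hb.hw k hk; omega) (gp (eL t) (eR t) (bx t).1) V (fun j _ => gp_le hV0 ih' j)
            have b1 := a2 j hj
            have b2 := a4 j hj
            have b3 : ‖Ev (ss x y) (bx t).2 (gp (eL t) (eR t) (bx t).1) j‖ ≤ K * e + K * V := by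
              have e1 : Ev (ss x y) (bx t).2 (gp (eL t) (eR t) (bx t).1) j =
                (Ev (ss x y) (bx t).2 (gp (eL t) (eR t) (bx t).1) j - p j) + p j := by ring
              rw [e1]
              exact (norm_add_le _ _).trans (add_le_add b1 b2)
            have b4 : K * e ≤ K * (K * V) := mul_le_mul_of_nonneg_left a5 hK.le
            have b5 : Q ^ (t + 1) * M = Q * V := by rw [hV, pow_succ]; ring
            rw [b5, hQ]
            nlinarith
          · rcases h j hj with h1 | h1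
            · exact h1.trans (hMV.trans hVQ)
            · rw [h1]
              exact (gp_le hV0 ih' j).trans hVQ
        have c1 := hg j hj.le
        have c2 := hg (j + 1) hj
        rw [gp_left hb.adj' hj] at c1
        rw [gp_succ _ _ hj] at c2
        exact ⟨c1, c2⟩
      · rw [(hb.out i hi).1, (hb.out i hi).2]
        exact ⟨(ih' i).1.trans hVQ, (ih' i).2.trans hVQ⟩
  intro t ht i
  obtain ⟨c1, c2⟩ := key t ht i
  have c3 : Q ^ t * M ≤ Q ^ N * M := mul_le_mul_of_nonneg_right (pow_le_pow_right₀ hQ1 (ht.trans hT)) hM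
  exact ⟨c1.trans c3, c2.trans c3⟩

end Pool.Agent.Helper57.PD
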