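import Pool.Agent.Helper57.PD.FinOf
import Pool.Agent.Helper30.EV3.Low

/-!
# EV3: the final theorem
-/

set_option autoImplicit false

namespace Pool.Agent.Helper57.PD

open Polynomial Pool.Agent.Helper85.Exp Pool.Agent.Helper60.EV2 Pool.Agent.Helper2.PD Pool.Agent.Helper41.PD

theorem bx3 {P : Type} [Fintype P] {G : Sh P} {C : Finset P} {τ : P → ℕ} {H : Cut G.nxt G.op C τ}
    {Bs : List (List P × List (P × ℕ))} (h : SB H G.lf (spc G C) Bs) :
    Pool.Agent.Helper30.EV3.Bx3 H (fun p => p ∈ spc G C) Bs where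
  bxs := h.bxs
  use := h.use
  sp := h.sp

theorem rowv_eq {P : Type} {G : Sh P} (ho : ∀ i, G.op i ≠ i) (c : Face G → ℂ) (z : ℂ) {p : P} (hp : G.lf p = true) :
    Pool.Agent.Helper30.EV3.rowv G.nxt G.op z (fun e => c (Lf G e)) (fun e => c (Rf G e)) p =
      rw1 G.nxt G.op (Lf G) (Rf G) c z p := by
  unfold Pool.Agent.Helper30.EV3.rowv rw1
  have h1 : Rf G (pr G.nxt G.op p) = Lf G (G.nxt.symm p) := (corner_S hp).symm
  simp only [h1]
  ring

theorem lowS : LowS := by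
  intro N Φ hΦ
  obtain ⟨th, hth, K, hK, H0⟩ := Pool.Agent.Helper30.EV3.lower N Φ hΦ
  refine ⟨th, hth, K, hK, ?_⟩
  intro x y hx hxΦ hy P _ G C τ H Bs ho hc hp hC hBs hS c F b hb hb1 hb2 hr hF f
  have h1 := H0 x y hx hxΦ hy P G C τ H (fun p => p ∈ spc G C) Bs ho hc hC hBs (bx3 hS)
    (fun e => c (Lf G e)) (fun e => c (Rf G e)) F b hb (fun p hp => Pool.Agent.Helper30.EV3.crn_of ho c hp) hb1 hb2
    (fun p hp hsp => by rw [rowv_eq ho c _ hp]; exact hr p hp hsp)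
    (fun p hp hsp => by rw [rowv_eq ho c _ hp]; exact hF p hp hsp)
  exact face_ind (p := fun f => ‖c f‖ ≤ K / x * F) (fun i => (h1 i).1) (fun i => (h1 i).2) f

theorem upS : UpS := by
  intro N Φ hΦ
  obtain ⟨th, hth, K, hK, H0⟩ := Pool.Agent.Helper30.EV3.upper N Φ hΦ
  refine ⟨th, hth, K, hK, ?_⟩
  intro x y hx hxΦ hy P _ G C τ H Bs ho hc hp hC hBs hS c M hM hb hr hF f
  have h1 := H0 x y hx hxΦ hy P G C τ H (fun p => p ∈ spc G C) Bs ho hC hBs (bx3 hS)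
    (fun e => c (Lf G e)) (fun e => c (Rf G e)) M hM (fun p hp => Pool.Agent.Helper30.EV3.crn_of ho c hp) hb
    (fun p hp hsp => hF p hp hsp)
    (fun p hp hsp => by rw [rowv_eq ho c _ hp]; exact hr p hp hsp)
  exact face_ind (p := fun f => ‖c f‖ ≤ K * M) (fun i => (h1 i).1) (fun i => (h1 i).2) f

/-- **The final theorem.** -/
theorem final (s : ℕ) : ∃ m₀ : ℕ, ∀ (P : Type) [Fintype P] (G : Sh P), Pool.Agent.Helper43.Pln.Plane G →
    Pool.Agent.Helper43.Pln.circles G ≤ s → m₀ ≤ Pool.Agent.Helper43.Pln.crossings G →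
    ∀ nab : Dg G → ℤ[X], Cs nab → ∀ j : ℕ,
      (nab (Pool.Agent.Helper43.Pln.allPos G)).coeff j * (nab (Pool.Agent.Helper43.Pln.allPos G)).coeff (j + 4) ≤
        (nab (Pool.Agent.Helper43.Pln.allPos G)).coeff (j + 2) ^ 2 := by
  obtain ⟨m₀, hm₀⟩ := fin_of lowS upS s
  refine ⟨m₀, fun P _ G hG hs hm nab hnab j => ?_⟩
  have e1 : sg G = Pool.Agent.Helper43.Pln.seifert G := by
    ext i
    rfl
  have hG' : Good s G := ⟨hG.cross, hG.conn, hG.genus, by
    unfold circ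
    rw [e1]
    exact hs⟩
  exact hm₀ P G hG' hm nab hnab j

end Pool.Agent.Helper57.PD
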