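import Pool.Agent.Helper48.EV2.Macro
import Pool.Agent.Helper52.EV2.Mono

/-!
# EV3: bounds for the face determinant of a diagram, from bounds for the face potentials

`X` crossings, `Fc` faces, `N S W E` the four corners, `f₁ f₂` the two faces of the base edge. The row of the crossing `x` is `c (N x) + a * c (S x) + b * c (W x) + d * c (E x)`.
-/

set_option autoImplicit false

namespace Pool.Agent.Helper57.PD

open Matrix

variable {X Fc : Type}

/-- the four corners and the two base faces -/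
structure Fd (X Fc : Type) where
  N : X → Fc
  S : X → Fc
  W : X → Fc
  E : X → Fc
  f₁ : Fc
  f₂ : Fc
  ne : f₁ ≠ f₂
  card : Nat.card Fc = Nat.card X + 2

namespace Fd

/-- the faces off the base edge -/
abbrev Col (D : Fd X Fc) : Type := {f : Fc // f ≠ D.f₁ ∧ f ≠ D.f₂}

/-- the row of a crossing -/
def row {R : Type*} [CommRing R] (D : Fd X Fc) (a b d : R) (c : Fc → R) (x : X) : R :=
  c (D.N x) + a * c (D.S x) + b * c (D.W x) + d * c (D.E x)

open Classical in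
/-- the face matrix -/
noncomputable def A {R : Type*} [CommRing R] (D : Fd X Fc) (a b d : R) : Matrix X D.Col R := fun x f =>
  D.row a b d (Pi.single f.1 1) x

/-- the time order of the crossings -/
structure Tm (D : Fd X Fc) (sp : X → Prop) (tau : X → ℕ) : Prop where
  base : ∀ x, ¬ sp x → D.N x ≠ D.f₁ ∧ D.N x ≠ D.f₂
  uniq : ∀ x y, ¬ sp x → D.N y = D.N x → y = x
  up : ∀ x y, ¬ sp x → ¬ sp y → (D.S y = D.N x ∨ D.W y = D.N x ∨ D.E y = D.N x) → tau x < tau y

/-- lower bound: small rows give small values at the special faces -/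
def Lower (D : Fd X Fc) (sp : X → Prop) (s : ℂ) (x K : ℝ) : Prop :=
  ∀ c : Fc → ℂ, ∀ F : ℝ, c D.f₁ = 0 → c D.f₂ = 0 → (∀ v, ¬ sp v → D.row (s ^ 2) (-s) (-s) c v = 0) →
    (∀ v, sp v → ‖D.row (s ^ 2) (-s) (-s) c v‖ ≤ F) →
    ∀ f, f ≠ D.f₁ → f ≠ D.f₂ → (∀ v, ¬ sp v → D.N v ≠ f) → x * ‖c f‖ ≤ K * F

/-- upper bound: small values at the special faces give small values around the special crossings -/
def Upper (D : Fd X Fc) (sp : X → Prop) (s : ℂ) (K : ℝ) : Prop :=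
  ∀ c : Fc → ℂ, ∀ M : ℝ, 0 ≤ M → c D.f₁ = 0 → c D.f₂ = 0 → (∀ v, ¬ sp v → D.row (s ^ 2) (-s) (-s) c v = 0) →
    (∀ f, (∀ v, ¬ sp v → D.N v ≠ f) → ‖c f‖ ≤ M) → ∀ v, sp v → ‖c (D.N v)‖ ≤ K * M ∧ ‖c (D.S v)‖ ≤ K * M ∧
      ‖c (D.W v)‖ ≤ K * M ∧ ‖c (D.E v)‖ ≤ K * M

variable [Fintype X] [Fintype Fc]

open Classical in
theorem card_col (D : Fd X Fc) : (Finset.univ.filter fun f : Fc => f ≠ D.f₁ ∧ f ≠ D.f₂).card = Fintype.card X := by
  classical
  have h1 : (Finset.univ.filter fun f : Fc => f ≠ D.f₁ ∧ f ≠ D.f₂) = (Finset.univ.erase D.f₁).erase D.f₂ := by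
    ext f
    simp [and_comm]
  have h2 := D.card
  rw [Nat.card_eq_fintype_card, Nat.card_eq_fintype_card] at h2
  rw [h1, Finset.card_erase_of_mem (by simp [D.ne.symm]), Finset.card_erase_of_mem (Finset.mem_univ _),
    Finset.card_univ, h2]
  omega

open Classical in
/-- a bijection between the crossings and the faces off the base edge which extends `N` -/
theorem exists_equiv (D : Fd X Fc) {sp : X → Prop} {tau : X → ℕ} (h : D.Tm sp tau) :
    ∃ e : X ≃ D.Col, ∀ x, ¬ sp x → (e x).1 = D.N x := by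
  classical
  obtain ⟨g, hg⟩ := Set.MapsTo.exists_equiv_extend_of_card_eq (α := X) (β := Fc)
    (t := Finset.univ.filter fun f : Fc => f ≠ D.f₁ ∧ f ≠ D.f₂) D.card_col.symm (s := {x | ¬ sp x}) (f := D.N)
    (fun x hx => by
      simp only [Finset.coe_filter, Finset.mem_univ, true_and, Set.mem_setOf_eq]
      exact h.base x hx)
    (fun x hx y _ hxy => (h.uniq x y hx hxy.symm).symm)
  refine ⟨g.trans (Equiv.subtypeEquivRight fun f => by simp), fun x hx => ?_⟩
  exact hg x hx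

open Classical in
/-- the value of the row by the matrix -/
theorem mulVec_row {R : Type*} [CommRing R] (D : Fd X Fc) (a b d : R) (c : Fc → R) (h1 : c D.f₁ = 0) (h2 : c D.f₂ = 0)
    (x : X) : ∑ f : D.Col, D.A a b d x f * c f.1 = D.row a b d c x := by
  classical
  have key : ∀ g : Fc, ∑ f : D.Col, (Pi.single f.1 (1 : R) : Fc → R) g * c f.1 = c g := by
    intro g
    by_cases hg : g ≠ D.f₁ ∧ g ≠ D.f₂
    · rw [Finset.sum_eq_single (⟨g, hg⟩ : D.Col)]
      · simp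
      · intro f _ hf
        have : g ≠ f.1 := fun e => hf (Subtype.ext e.symm)
        rw [Pi.single_eq_of_ne this, zero_mul]
      · intro h
        exact absurd (Finset.mem_univ _) h
    · have h3 : c g = 0 := by
        rcases not_and_or.1 hg with h | h
        · rw [not_not.1 h, h1]
        · rw [not_not.1 h, h2]
      rw [h3]
      refine Finset.sum_eq_zero fun f _ => ?_
      have : g ≠ f.1 := fun e => hg (e ▸ f.2)
      rw [Pi.single_eq_of_ne this, zero_mul]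
  have e : ∀ f : D.Col, D.A a b d x f * c f.1 = (Pi.single f.1 (1 : R) : Fc → R) (D.N x) * c f.1 +
      a * ((Pi.single f.1 (1 : R) : Fc → R) (D.S x) * c f.1) + b * ((Pi.single f.1 (1 : R) : Fc → R) (D.W x) * c f.1) +
      d * ((Pi.single f.1 (1 : R) : Fc → R) (D.E x) * c f.1) := by
    intro f
    unfold A row
    ring
  rw [Finset.sum_congr rfl fun f _ => e f, Finset.sum_add_distrib, Finset.sum_add_distrib, Finset.sum_add_distrib,
    ← Finset.mul_sum, ← Finset.mul_sum, ← Finset.mul_sum, key, key, key, key]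
  rfl

open Classical in
/-- two bijections give the same determinant up to the sign -/
theorem det_equiv {R : Type*} [CommRing R] (D : Fd X Fc) (e e' : X ≃ D.Col) (M : Matrix X D.Col R) :
    (M.submatrix id e).det = (Equiv.Perm.sign (e.trans e'.symm) : ℤ) * (M.submatrix id e').det := by
  have h : M.submatrix id e = (M.submatrix id e').submatrix id (e.trans e'.symm) := by
    ext i j
    simp
  rw [h, det_permute']

open Classical in
theorem norm_det_equiv (D : Fd X Fc) (e e' : X ≃ D.Col) (M : Matrix X D.Col ℂ) :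
    ‖(M.submatrix id e).det‖ = ‖(M.submatrix id e').det‖ := by
  rw [det_equiv D e e' M, norm_mul]
  have h1 : ‖((Equiv.Perm.sign (e.trans e'.symm) : ℤ) : ℂ)‖ = 1 := by
    rcases Int.units_eq_one_or (Equiv.Perm.sign (e.trans e'.symm)) with h | h <;> rw [h] <;> simp
  rw [h1, one_mul]

open Classical in
/-- the determinant of the inner block -/
theorem det_inner {R : Type*} [CommRing R] (D : Fd X Fc) {sp : X → Prop} {tau : X → ℕ} (h : D.Tm sp tau)
    (e : X ≃ D.Col) (he : ∀ x, ¬ sp x → (e x).1 = D.N x) (a b d : R) :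
    (((D.A a b d).submatrix id e).submatrix (Subtype.val : {x // ¬ sp x} → X) Subtype.val).det = 1 := by
  set M : Matrix {x // ¬ sp x} {x // ¬ sp x} R :=
    ((D.A a b d).submatrix id e).submatrix (Subtype.val : {x // ¬ sp x} → X) Subtype.val with hM
  have h1 : M = 1 - (1 - M) := by abel
  rw [h1]
  apply Pool.Agent.Helper52.EV2.det_one_sub' _ (fun x => (tau x.1 : ℤ))
  rintro ⟨y, hy⟩ ⟨x, hx⟩ hne
  -- the row of `y` in the column of `x`
  have e1 : M ⟨y, hy⟩ ⟨x, hx⟩ = D.row a b d (Pi.single (D.N x) 1) y := by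
    rw [hM]
    show D.row a b d (Pi.single (e x).1 1) y = _
    rw [he x hx]
  by_contra hlt
  have hlt' : ¬ tau x < tau y := by
    intro h2
    exact hlt (by exact_mod_cast h2)
  have h3 : D.S y ≠ D.N x := fun h4 => hlt' (h.up x y hx hy (Or.inl h4))
  have h4 : D.W y ≠ D.N x := fun h4 => hlt' (h.up x y hx hy (Or.inr (Or.inl h4)))
  have h5 : D.E y ≠ D.N x := fun h4 => hlt' (h.up x y hx hy (Or.inr (Or.inr h4)))
  apply hne
  rw [Matrix.sub_apply, e1]
  unfold row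
  rw [Pi.single_eq_of_ne h3, Pi.single_eq_of_ne h4, Pi.single_eq_of_ne h5]
  by_cases hxy : y = x
  · subst hxy
    simp
  · have h6 : D.N y ≠ D.N x := fun h7 => hxy (h.uniq x y hx h7)
    rw [Pi.single_eq_of_ne h6, Matrix.one_apply_ne (fun h7 => hxy (congrArg Subtype.val h7))]
    ring

open Classical in
/-- **The bounds.** -/
theorem bounds (D : Fd X Fc) {sp : X → Prop} {tau : X → ℕ} (h : D.Tm sp tau) (a b d : ℂ) {lo K : ℝ} (h0 : 0 ≤ lo)
    (hK : 0 ≤ K)
    (lower : ∀ c : Fc → ℂ, ∀ F : ℝ, c D.f₁ = 0 → c D.f₂ = 0 → (∀ x, ¬ sp x → D.row a b d c x = 0) →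
      (∀ x, sp x → ‖D.row a b d c x‖ ≤ F) → ∀ f, f ≠ D.f₁ → f ≠ D.f₂ → (∀ x, ¬ sp x → D.N x ≠ f) → lo * ‖c f‖ ≤ F)
    (upper : ∀ c : Fc → ℂ, ∀ M : ℝ, 0 ≤ M → c D.f₁ = 0 → c D.f₂ = 0 → (∀ x, ¬ sp x → D.row a b d c x = 0) →
      (∀ f, (∀ x, ¬ sp x → D.N x ≠ f) → ‖c f‖ ≤ M) → ∀ x, sp x → ‖c (D.N x)‖ ≤ K * M ∧ ‖c (D.S x)‖ ≤ K * M ∧
        ‖c (D.W x)‖ ≤ K * M ∧ ‖c (D.E x)‖ ≤ K * M)
    (e : X ≃ D.Col) :
    lo ^ Fintype.card {x // sp x} ≤ ‖((D.A a b d).submatrix id e).det‖ ∧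
      ‖((D.A a b d).submatrix id e).det‖ ≤ ((1 + ‖a‖ + ‖b‖ + ‖d‖) * K) ^ Fintype.card {x // sp x} := by
  obtain ⟨e', he'⟩ := D.exists_equiv h
  rw [norm_det_equiv D e e']
  -- from vectors on the crossings to vectors on the faces
  let ext : (X → ℂ) → Fc → ℂ := fun y f => if hf : f ≠ D.f₁ ∧ f ≠ D.f₂ then y (e'.symm ⟨f, hf⟩) else 0
  have x1 : ∀ y, ext y D.f₁ = 0 := fun y => by
    simp only [ext]
    rw [dif_neg (fun h1 => h1.1 rfl)]
  have x2 : ∀ y, ext y D.f₂ = 0 := fun y => by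
    simp only [ext]
    rw [dif_neg (fun h1 => h1.2 rfl)]
  have x3 : ∀ y x, ext y (e' x).1 = y x := fun y x => by
    simp only [ext]
    rw [dif_pos (e' x).2]
    congr 1
    exact e'.symm_apply_apply x
  have x4 : ∀ y x, (((D.A a b d).submatrix id e') *ᵥ y) x = D.row a b d (ext y) x := by
    intro y x
    rw [← D.mulVec_row a b d (ext y) (x1 y) (x2 y) x]
    show ∑ z, D.A a b d x (e' z) * y z = _
    rw [← Equiv.sum_comp e' fun f => D.A a b d x f * ext y f.1]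
    exact Finset.sum_congr rfl fun z _ => by rw [x3]
  refine Pool.Agent.Helper48.EV2.macro_bounds _ sp (D.det_inner h e' he' a b d) h0 ?_ ?_
  · intro y F hy hF v hv
    have h2 := lower (ext y) F (x1 y) (x2 y) (fun x hx => by rw [← x4]; exact hy x hx)
      (fun x hx => by rw [← x4]; exact hF x hx) (e' v).1 (e' v).2.1 (e' v).2.2 (fun x hx hNx => by
        have h3 : e' x = e' v := Subtype.ext (by rw [he' x hx, hNx])
        have h4 := e'.injective h3
        rw [h4] at hx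
        exact hx hv)
    rwa [x3] at h2
  · intro y M hy hM v hv
    have hM0 : 0 ≤ M := (norm_nonneg _).trans (hM v hv)
    have h2 := upper (ext y) M hM0 (x1 y) (x2 y) (fun x hx => by rw [← x4]; exact hy x hx) (by
      intro f hf
      by_cases h3 : f ≠ D.f₁ ∧ f ≠ D.f₂
      · have h4 : f = (e' (e'.symm ⟨f, h3⟩)).1 := by rw [Equiv.apply_symm_apply]
        by_cases h5 : sp (e'.symm ⟨f, h3⟩)
        · rw [h4, x3]
          exact hM _ h5
        · exfalso
          exact hf _ h5 (by rw [← he' _ h5, ← h4])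
      · simp only [ext]
        rw [dif_neg h3, norm_zero]
        exact hM0) v hv
    rw [x4]
    unfold row
    obtain ⟨t1, t2, t3, t4⟩ := h2
    calc ‖ext y (D.N v) + a * ext y (D.S v) + b * ext y (D.W v) + d * ext y (D.E v)‖
        ≤ ‖ext y (D.N v)‖ + ‖a‖ * ‖ext y (D.S v)‖ + ‖b‖ * ‖ext y (D.W v)‖ + ‖d‖ * ‖ext y (D.E v)‖ := by
          refine (norm_add_le _ _).trans ?_
          rw [norm_mul]
          gcongr
          refine (norm_add_le _ _).trans ?_
          rw [norm_mul]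
          gcongr
          refine (norm_add_le _ _).trans ?_
          rw [norm_mul]
      _ ≤ K * M + ‖a‖ * (K * M) + ‖b‖ * (K * M) + ‖d‖ * (K * M) := by
          gcongr
      _ = (1 + ‖a‖ + ‖b‖ + ‖d‖) * K * M := by ring

/-- **The bounds**, with arbitrary instances. -/
theorem bounds' [inst : DecidableEq X] (D : Fd X Fc) {sp : X → Prop} {tau : X → ℕ} (h : D.Tm sp tau) (a b d : ℂ) {lo K : ℝ}
    (h0 : 0 ≤ lo) (hK : 0 ≤ K)
    (lower : ∀ c : Fc → ℂ, ∀ F : ℝ, c D.f₁ = 0 → c D.f₂ = 0 → (∀ x, ¬ sp x → D.row a b d c x = 0) →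
      (∀ x, sp x → ‖D.row a b d c x‖ ≤ F) → ∀ f, f ≠ D.f₁ → f ≠ D.f₂ → (∀ x, ¬ sp x → D.N x ≠ f) → lo * ‖c f‖ ≤ F)
    (upper : ∀ c : Fc → ℂ, ∀ M : ℝ, 0 ≤ M → c D.f₁ = 0 → c D.f₂ = 0 → (∀ x, ¬ sp x → D.row a b d c x = 0) →
      (∀ f, (∀ x, ¬ sp x → D.N x ≠ f) → ‖c f‖ ≤ M) → ∀ x, sp x → ‖c (D.N x)‖ ≤ K * M ∧ ‖c (D.S x)‖ ≤ K * M ∧
        ‖c (D.W x)‖ ≤ K * M ∧ ‖c (D.E x)‖ ≤ K * M)
    (e : X ≃ D.Col) :
    lo ^ Nat.card {x // sp x} ≤ ‖((D.A a b d).submatrix id e).det‖ ∧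
      ‖((D.A a b d).submatrix id e).det‖ ≤ ((1 + ‖a‖ + ‖b‖ + ‖d‖) * K) ^ Nat.card {x // sp x} := by
  obtain rfl : inst = fun x y => Classical.propDecidable (x = y) := Subsingleton.elim _ _
  classical
  have h1 := D.bounds h a b d h0 hK lower upper e
  have h2 : Nat.card {x // sp x} = Fintype.card {x // sp x} := Nat.card_eq_fintype_card
  rw [h2]
  exact h1

/-- the upper half for contracting rows -/
theorem upper_of_small (D : Fd X Fc) {sp : X → Prop} (a b d : ℂ) (hs : ‖a‖ + ‖b‖ + ‖d‖ < 1) (c : Fc → ℂ)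
    (M : ℝ) (h0 : ∀ x, ¬ sp x → D.row a b d c x = 0)
    (h1 : ∀ f, (∀ x, ¬ sp x → D.N x ≠ f) → ‖c f‖ ≤ M) (hM : 0 ≤ M) (f : Fc) : ‖c f‖ ≤ M := by
  obtain ⟨g, _, hg⟩ := Finset.exists_max_image Finset.univ (fun f => ‖c f‖) ⟨f, Finset.mem_univ _⟩
  have hle : ∀ f, ‖c f‖ ≤ ‖c g‖ := fun f => hg f (Finset.mem_univ _)
  refine (hle f).trans ?_
  by_contra hcon
  rw [not_le] at hcon
  have h2 : ¬ ∀ x, ¬ sp x → D.N x ≠ g := fun h3 => absurd (h1 g h3) (not_le.2 hcon)
  simp only [not_forall, not_not] at h2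
  obtain ⟨x, hx, hxg⟩ := h2
  have h3 := h0 x hx
  unfold row at h3
  rw [hxg] at h3
  have h4 : c g = -(a * c (D.S x) + b * c (D.W x) + d * c (D.E x)) := by linear_combination h3
  have h5 : ‖c g‖ ≤ (‖a‖ + ‖b‖ + ‖d‖) * ‖c g‖ := by
    calc ‖c g‖ = ‖a * c (D.S x) + b * c (D.W x) + d * c (D.E x)‖ := by rw [h4, norm_neg]
      _ ≤ ‖a‖ * ‖c (D.S x)‖ + ‖b‖ * ‖c (D.W x)‖ + ‖d‖ * ‖c (D.E x)‖ := by
          refine (norm_add_le _ _).trans ?_
          rw [norm_mul d]
          gcongr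
          refine (norm_add_le _ _).trans ?_
          rw [norm_mul, norm_mul]
      _ ≤ ‖a‖ * ‖c g‖ + ‖b‖ * ‖c g‖ + ‖d‖ * ‖c g‖ := by
          gcongr <;> exact hle _
      _ = _ := by ring
  have h6 : 0 < ‖c g‖ := lt_of_le_of_lt hM hcon
  nlinarith

end Fd

end Pool.Agent.Helper57.PD
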