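import Pool.Agent.Helper57.EV2.TopG
import Pool.Agent.Helper57.PD.FaceDet
import Pool.Agent.Helper60.EV2.Exist
import Pool.Agent.Helper27.EV2.Rec

/-!
# EV3: the assembly, for an abstract family of shadows

`GW`: the walk determinant of the positive diagram as an integer polynomial in `t = s ^ 2`.
-/

set_option autoImplicit false

namespace Pool.Agent.Helper57.PD

open Polynomial Pool.Agent.Helper85.Exp Pool.Agent.Helper60.EV2 Pool.Agent.Helper27.EV2 Matrix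

section one

variable {P : Type} [Fintype P] [DecidableEq P]

/-- the kinds of the passages of the positive diagram -/
def kp {R : Type*} (G : Sh P) (q : R) (i : P) : Kd R := if G.lf i = true then .un else .ov q

theorem kd_allPos {R : Type*} [CommRing R] (G : Sh P) (s t : R) : kd s t (allPos G) = kp G (s ^ 2) := rfl

/-- the walk determinant of the positive diagram as an integer polynomial -/
noncomputable def GW (G : Sh P) (b : P) : ℤ[X] := W G.nxt G.op (kp G X) b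

theorem W_map {R S : Type*} [CommRing R] [CommRing S] (φ : R →+* S) (G : Sh P) (q : R) (b : P) :
    φ (W G.nxt G.op (kp G q) b) = W G.nxt G.op (kp G (φ q)) b := by
  unfold W
  rw [RingHom.map_det]
  congr 1
  ext i j
  rw [RingHom.mapMatrix_apply, Matrix.map_apply, Matrix.add_apply, Matrix.sub_apply, Matrix.add_apply, Matrix.sub_apply,
    map_add, map_sub]
  congr 1
  · congr 1
    · by_cases h : i = j
      · subst h; simp
      · rw [Matrix.one_apply_ne h, Matrix.one_apply_ne h, map_zero]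
    · simp only [B, Matrix.submatrix_apply, id_eq, U, kp]
      split_ifs <;> simp
  · by_cases h : b = i ∧ b = j
    · obtain ⟨h1, h2⟩ := h
      subst h1
      rw [← h2]
      simp
    · rw [Matrix.single_apply, Matrix.single_apply, if_neg h, if_neg h, map_zero]

theorem aeval_GW (G : Sh P) (b : P) (t : ℂ) : aeval t (GW G b) = W G.nxt G.op (kp G t) b := by
  have h := W_map (aeval t : ℤ[X] →ₐ[ℤ] ℂ).toRingHom G X b
  have e1 : ((aeval t : ℤ[X] →ₐ[ℤ] ℂ).toRingHom X : ℂ) = t := aeval_X t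
  rw [e1] at h
  exact h

theorem aeval_GW_sq (G : Sh P) (b : P) (s t : ℂ) : aeval (s ^ 2) (GW G b) = W G.nxt G.op (kd s t (allPos G)) b := by
  rw [aeval_GW, kd_allPos]

end one

/-- powers of a bounded number -/
theorem zpow_bounds {r A : ℝ} (hr : 0 < r) (hA : 1 ≤ A) (h1 : r ≤ A) (h2 : A⁻¹ ≤ r) {n : ℤ} {K : ℕ} (hn : |n| ≤ K) :
    (A ^ K)⁻¹ ≤ r ^ n ∧ r ^ n ≤ A ^ K := by
  have key : ∀ k : ℕ, k ≤ K → (A ^ K)⁻¹ ≤ r ^ k ∧ r ^ k ≤ A ^ K := by
    intro k hk
    have a1 : A ^ k ≤ A ^ K := pow_le_pow_right₀ hA hk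
    constructor
    · have a2 : (A ^ K)⁻¹ ≤ (A ^ k)⁻¹ := inv_anti₀ (by positivity) a1
      refine a2.trans ?_
      rw [← inv_pow]
      exact pow_le_pow_left₀ (by positivity) h2 k
    · exact (pow_le_pow_left₀ hr.le h1 k).trans a1
  rcases le_total 0 n with hn0 | hn0
  · lift n to ℕ using hn0
    rw [zpow_natCast]
    rw [abs_of_nonneg (by positivity)] at hn
    exact key n (by exact_mod_cast hn)
  · obtain ⟨k, rfl⟩ : ∃ k : ℕ, n = -(k : ℤ) := ⟨n.natAbs, by omega⟩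
    rw [abs_neg, abs_of_nonneg (by positivity)] at hn
    obtain ⟨h3, h4⟩ := key k (by exact_mod_cast hn)
    rw [_root_.zpow_neg, zpow_natCast]
    have hp : 0 < r ^ k := by positivity
    have hp' : 0 < A ^ K := by positivity
    constructor
    · exact inv_anti₀ hp h4
    · rw [inv_le_comm₀ hp hp']
      exact h3

theorem norm_ss_eq (x y : ℝ) : ‖ss x y‖ = Real.exp (-x) := by
  unfold ss
  rw [Complex.norm_exp]
  simp

theorem ss_sq_eq (x y : ℝ) : ss x y ^ 2 = Complex.exp (-(2 * (x + y * Complex.I))) := by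
  unfold ss
  rw [← Complex.exp_nat_mul]
  congr 1
  push_cast
  ring

/-- **The assembly.** -/
theorem ev3_core {ι : Type*} (P : ι → Type) [∀ i, Fintype (P i)] [∀ i, DecidableEq (P i)] (G : ∀ i, Sh (P i))
    (b : ∀ i, P i) (m : ι → ℕ) (α : ι → ℤ) (p : ι → ℤ[X]) (K0 : ℕ)
    (nn : ∀ i k, 0 ≤ (p i).coeff k)
    (par : ∀ i j k, (p i).coeff j ≠ 0 → (p i).coeff k ≠ 0 → j % 2 = k % 2)
    (deg : ∀ i, (p i).natDegree ≤ m i)
    (form : ∀ i, ∀ s : ℂ, s ≠ 0 → W (G i).nxt (G i).op (kd s s⁻¹ (allPos (G i))) (b i) =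
      s ^ ((m i : ℤ) + α i) * aeval (s⁻¹ - s) (p i))
    (hα : ∀ i, |α i| ≤ K0)
    (Xc Fc : ι → Type) [∀ i, Fintype (Xc i)] [∀ i, Fintype (Fc i)] (D : ∀ i, Fd (Xc i) (Fc i))
    (e : ∀ i, Xc i ≃ (D i).Col) [∀ i, DecidableEq (Xc i)]
    (hA : ∀ i, ∀ s : ℂ, s ≠ 0 → ‖W (G i).nxt (G i).op (kd s s⁻¹ (allPos (G i))) (b i)‖ =
      ‖s‖ ^ (α i) * ‖(((D i).A (s ^ 2) (-s) (-s)).submatrix id (e i)).det‖)
    (bd : ∀ Φ : ℝ, 0 < Φ → ∃ N : ℕ, ∃ th : ℝ, 0 < th ∧ ∃ K : ℝ, 0 < K ∧ ∀ i, ∃ (sp : Xc i → Prop) (tau : Xc i → ℕ),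
      (D i).Tm sp tau ∧ Nat.card {x // sp x} ≤ N ∧ ∀ x y : ℝ, 0 < x → x ≤ Φ → |y| ≤ th →
        (D i).Lower sp (ss x y) x K ∧ (D i).Upper sp (ss x y) K)
    (h3 : ∀ r₀ R : ℝ, 0 < r₀ → 0 < R → ∃ c : ℝ, 0 < c ∧ ∃ C : ℝ, ∀ i, ∀ z : ℂ, r₀ ≤ ‖z‖ →
      ‖z‖ ≤ R → ∀ a : ℝ, 0 < a → a ^ 2 = ‖z‖ * a + 1 →
        ‖aeval z (p i)‖ ≤ C * a ^ (m i) * Real.exp (-(c * m i * (1 - Real.cos (2 * z.arg))))) :
    ∃ m₀ : ℕ, ∀ i, m₀ ≤ m i → ∀ k : ℕ,
      (p i).coeff k * (p i).coeff (k + 4) ≤ (p i).coeff (k + 2) ^ 2 := by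
  refine Pool.Agent.Helper57.EV2.ev2 m p (fun i => GW (G i) (b i)) (fun i => (m i : ℤ) + α i) K0 nn par deg ?_ ?_ ?_ h3 ?_
  · intro i s hs
    rw [aeval_GW_sq _ _ s s⁻¹, form i s hs]
  · intro i
    have h1 : (m i : ℤ) + α i - m i = α i := by ring
    rw [h1]
    exact hα i
  · -- H1
    intro Φ hΦ
    obtain ⟨N, th, hth, K, hK, hbd⟩ := bd Φ hΦ
    set KK : ℝ := max K Φ with hKK
    have hKK0 : 0 < KK := lt_of_lt_of_le hK (le_max_left _ _)
    set H : ℝ := max 1 (4 * K) with hH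
    set A : ℝ := Real.exp Φ with hAdef
    have hA1 : 1 ≤ A := Real.one_le_exp hΦ.le
    refine ⟨th, hth, N, (A ^ K0)⁻¹ * (KK ^ N)⁻¹, by positivity, A ^ K0 * H ^ N, ?_⟩
    intro i x y hx hxΦ hy
    have hs0 : ss x y ≠ 0 := Complex.exp_ne_zero _
    have hns := norm_ss_eq x y
    have hz : (A ^ K0)⁻¹ ≤ ‖ss x y‖ ^ (α i) ∧ ‖ss x y‖ ^ (α i) ≤ A ^ K0 := by
      apply zpow_bounds _ hA1 _ _ (hα i)
      · rw [hns]; positivity
      · rw [hns]
        exact (Real.exp_le_one_iff.2 (by linarith)).trans hA1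
      · rw [hns, hAdef, ← Real.exp_neg]
        exact Real.exp_le_exp.2 (by linarith)
    have hn1 : ‖ss x y‖ ≤ 1 := by
      rw [hns]
      exact Real.exp_le_one_iff.2 (by linarith)
    obtain ⟨sp, tau, hT, hcard, hLU⟩ := hbd i
    obtain ⟨hlow, hup⟩ := hLU x y hx hxΦ hy
    have hb := (D i).bounds' hT (ss x y ^ 2) (-ss x y) (-ss x y) (lo := x / KK) (K := K) (by positivity) hK.le
      (by
        intro c F h1 h2 h3 h4 f hf1 hf2 hf
        have h5 := hlow c F h1 h2 h3 h4 f hf1 hf2 hf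
        by_cases hFs : ∃ v, sp v
        · obtain ⟨v, hv⟩ := hFs
          have hF0 : 0 ≤ F := (norm_nonneg _).trans (h4 v hv)
          have h6 : x * ‖c f‖ ≤ KK * F := h5.trans (mul_le_mul_of_nonneg_right (le_max_left _ _) hF0)
          rw [div_mul_eq_mul_div, div_le_iff₀ hKK0]
          linarith
        · -- no special crossing: no face off the base edge which is special
          exfalso
          have h6 := (D i).exists_equiv hT
          obtain ⟨e', he'⟩ := h6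
          have h7 : ¬ sp (e'.symm ⟨f, hf1, hf2⟩) := fun h => hFs ⟨_, h⟩
          apply hf _ h7
          rw [← he' _ h7, Equiv.apply_symm_apply])
      hup (e i)
    rw [← ss_sq_eq, aeval_GW_sq _ _ (ss x y) (ss x y)⁻¹, hA i _ hs0]
    have hlo : (KK ^ N)⁻¹ * x ^ N ≤ (x / KK) ^ Nat.card {v // sp v} := by
      have h6 : (KK ^ N)⁻¹ * x ^ N = (x / KK) ^ N := by rw [div_pow]; ring
      rw [h6]
      refine pow_le_pow_of_le_one (by positivity) ?_ hcard
      rw [div_le_one hKK0]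
      exact hxΦ.trans (le_max_right _ _)
    have hhi : ((1 + ‖ss x y ^ 2‖ + ‖-ss x y‖ + ‖-ss x y‖) * K) ^ Nat.card {v // sp v} ≤ H ^ N := by
      have h6 : (1 + ‖ss x y ^ 2‖ + ‖-ss x y‖ + ‖-ss x y‖) * K ≤ H := by
        refine le_trans ?_ (le_max_right _ _)
        refine mul_le_mul_of_nonneg_right ?_ hK.le
        rw [norm_neg, norm_pow]
        have : ‖ss x y‖ ^ 2 ≤ 1 := pow_le_one₀ (norm_nonneg _) hn1
        linarith
      exact (pow_le_pow_left₀ (by positivity) h6 _).trans (pow_le_pow_right₀ (le_max_left _ _) hcard)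
    constructor
    · calc (A ^ K0)⁻¹ * (KK ^ N)⁻¹ * x ^ N = (A ^ K0)⁻¹ * ((KK ^ N)⁻¹ * x ^ N) := by ring
        _ ≤ _ := mul_le_mul hz.1 (hlo.trans hb.1) (by positivity) (by positivity)
    · exact mul_le_mul hz.2 (hb.2.trans hhi) (norm_nonneg _) (by positivity)
  · -- H4
    obtain ⟨N, th, hth, K, hK, hbd⟩ := bd 1 one_pos
    refine ⟨4 / 25, by norm_num, (5 / 2) ^ K0 * 2 ^ N, ?_⟩
    intro i t ht
    obtain ⟨sp, tau, hT, hcard, -⟩ := hbd i
    have ev : ∀ z : ℂ, ((GW (G i) (b i)).map (Int.castRingHom ℂ)).eval z = aeval z (GW (G i) (b i)) := by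
      intro z
      rw [eval_map, aeval_def]
      congr 1
    rw [← ev]
    refine Pool.Agent.Helper48.EV2.max_disc _ (r := 4 / 25) (by norm_num) ?_ t ht
    intro z hz
    rw [ev]
    obtain ⟨s, hs⟩ : ∃ s : ℂ, s ^ 2 = z := ⟨z ^ ((1 : ℂ) / 2), by
      rw [← Complex.cpow_nat_mul]
      norm_num⟩
    have hns : ‖s‖ = 2 / 5 := by
      have h1 : ‖s‖ ^ 2 = (2 / 5 : ℝ) ^ 2 := by
        rw [← norm_pow, hs, hz]
        norm_num
      exact (sq_eq_sq₀ (norm_nonneg _) (by norm_num)).1 h1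
    have hs0 : s ≠ 0 := by
      rintro rfl
      rw [norm_zero] at hns
      norm_num at hns
    rw [← hs, aeval_GW_sq _ _ s s⁻¹, hA i s hs0]
    have hz : ‖s‖ ^ (α i) ≤ (5 / 2) ^ K0 := by
      refine (zpow_bounds (by rw [hns]; norm_num) (A := 5 / 2) (by norm_num) ?_ ?_ (hα i)).2
      · rw [hns]; norm_num
      · rw [hns]; norm_num
    have hsm : ‖s ^ 2‖ + ‖-s‖ + ‖-s‖ < 1 := by
      rw [norm_neg, norm_pow, hns]
      norm_num
    have hb := (D i).bounds' hT (s ^ 2) (-s) (-s) (lo := 0) (K := 1) le_rfl zero_le_one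
      (by
        intro c F h1 h2 h3 h4 f hf1 hf2 hf
        rw [zero_mul]
        by_cases hFs : ∃ v, sp v
        · obtain ⟨v, hv⟩ := hFs
          exact (norm_nonneg _).trans (h4 v hv)
        · exfalso
          have h6 := (D i).exists_equiv hT
          obtain ⟨e', he'⟩ := h6
          have h7 : ¬ sp (e'.symm ⟨f, hf1, hf2⟩) := fun h => hFs ⟨_, h⟩
          apply hf _ h7
          rw [← he' _ h7, Equiv.apply_symm_apply])
      (fun c M hM _ _ h3 h4 v _ => by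
        have h5 := (D i).upper_of_small (s ^ 2) (-s) (-s) hsm c M h3 h4 hM
        rw [one_mul]
        exact ⟨h5 _, h5 _, h5 _, h5 _⟩) (e i)
    refine mul_le_mul hz (hb.2.trans ?_) (norm_nonneg _) (by positivity)
    have h6 : (1 + ‖s ^ 2‖ + ‖-s‖ + ‖-s‖) * 1 ≤ 2 := by linarith
    exact (pow_le_pow_left₀ (by positivity) h6 _).trans (pow_le_pow_right₀ (by norm_num) hcard)

end Pool.Agent.Helper57.PD
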