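import Pool.Agent.Helper41.PD.State
import Pool.Agent.Helper30.EV3.Net

/-!
# EV3: the values along a box

A cut shadow with its sorted list of crossings `U ++ B.2 ++ V`, `B` a box, `c` a function on the faces. `vL`, `vR`: the values at the faces to the left and to the
right of the current edge of a label. Every crossing of the box changes the gap values by its letter, up to the row of the crossing.
-/

set_option autoImplicit false

namespace Pool.Agent.Helper57.PD

open Pool.Agent.Helper41.PD Pool.Agent.Helper30.EV3 Pool.Agent.Helper78.EV2 Pool.Agent.Helper78.EV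

variable {P : Type} {nxt : Equiv.Perm P} {op : P → P} {C : Finset P} {τ : P → ℕ} {F : Type}

/-- the value left of the current edge of the label `l` after the crossings of `X` -/
noncomputable def vL (H : Cut nxt op C τ) (L : P → F) (c : F → ℂ) (X : List P) (l : P) : ℂ := c (L (st H.lab op X l))

/-- the row of a crossing -/
def rw1 (nxt : Equiv.Perm P) (op : P → P) (L R : P → F) (c : F → ℂ) (s : ℂ) (p : P) : ℂ :=
  c (R p) + s ^ 2 * c (L (nxt.symm p)) + -s * c (L p) + -s * c (R (op p))

open Classical in
/-- the letters of a box -/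
noncomputable def lts (H : Cut nxt op C τ) (B : List P × List P) : List ℕ := B.2.map fun p => B.1.idxOf (H.lab p)

open Classical in
theorem idx_spec {H : Cut nxt op C τ} {Sp : Finset P} {B : List P × List P} (hB : IsBox H Sp B) {p : P} (hp : p ∈ B.2) :
    ∃ h : B.1.idxOf (H.lab p) + 1 < B.1.length, B.1[B.1.idxOf (H.lab p)] = H.lab p ∧
      B.1[B.1.idxOf (H.lab p) + 1] = H.lab (op p) := by
  obtain ⟨k, hk, h1, h2⟩ := hB.letter p hp
  have e : B.1.idxOf (H.lab p) = k := by
    rw [← h1]
    exact hB.nodup.idxOf_getElem k (by omega)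
  exact ⟨by rw [e]; exact hk, by simp only [e]; exact h1, by simp only [e]; exact h2⟩

/-- the values of the gaps of a chain of labels -/
theorem gp_big {ι : Type*} (eL eR : ι → ℂ) {ch : List ι} {j : ℕ} (h : ch.length ≤ j) : gp eL eR ch (j + 1) = 0 := by
  simp [gp, List.getElem?_eq_none h]

theorem gp_zero_cons {ι : Type*} (eL eR : ι → ℂ) {ch : List ι} (h : 0 < ch.length) : gp eL eR ch 0 = eL ch[0] := by
  simp [gp, List.getElem?_eq_getElem h]

/-- the values of a chain of labels in a subtype -/
theorem gp_map {ι κ : Type*} (f : ι → κ) (eL eR : κ → ℂ) (ch : List ι) (j : ℕ) :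
    gp eL eR (ch.map f) j = gp (fun i => eL (f i)) (fun i => eR (f i)) ch j := by
  cases j with
  | zero =>
    unfold gp
    rw [List.getElem?_map]
    cases ch[0]? <;> rfl
  | succ j =>
    show ((ch.map f)[j]?).elim 0 eR = (ch[j]?).elim 0 fun i => eR (f i)
    rw [List.getElem?_map]
    cases ch[j]? <;> rfl

section step

variable (H : Cut nxt op C τ) {lf : P → Bool} {L R : P → F} (c : F → ℂ) (s : ℂ)

/-- (S1) one crossing -/
theorem gap_step (hc : Corn nxt op lf L R) (hop : ∀ p, op (op p) = p) {ch : List P} (hnd : ch.Nodup) {cur : P → P} {p : P} (hp : lf p = true)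
    (hne : H.lab p ≠ H.lab (op p)) (b1 : cur (H.lab p) = pr nxt op p) (b2 : cur (H.lab (op p)) = pr nxt op (op p))
    (hadj : ∀ (j : ℕ) (h : j + 1 < ch.length), c (R (cur ch[j])) = c (L (cur ch[j + 1])))
    {k : ℕ} (hk : k + 1 < ch.length) (h1 : ch[k] = H.lab p) (h2 : ch[k + 1] = H.lab (op p)) (j : ℕ) :
    gp (fun l => c (L (stp H.lab op cur p l))) (fun l => c (R (stp H.lab op cur p l))) ch j =
      lt s k (gp (fun l => c (L (cur l))) (fun l => c (R (cur l))) ch) j +
        (if j = k + 1 then rw1 nxt op L R c s p else 0) := by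
  set g := gp (fun l => c (L (cur l))) (fun l => c (R (cur l))) ch with hg
  set g' := gp (fun l => c (L (stp H.lab op cur p l))) (fun l => c (R (stp H.lab op cur p l))) ch with hg'
  have hidx : ∀ (i : ℕ) (hi : i < ch.length), (ch[i] = H.lab p ↔ i = k) ∧ (ch[i] = H.lab (op p) ↔ i = k + 1) := by
    intro i hi
    rw [← h1, ← h2]
    exact ⟨List.Nodup.getElem_inj_iff hnd, List.Nodup.getElem_inj_iff hnd⟩
  by_cases hj : j = k + 1
  · subst hj
    rw [if_pos rfl]
    unfold lt
    rw [if_pos rfl]
    have e1 : g' (k + 1) = c (R p) := by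
      rw [hg', gp_succ _ _ (by omega)]
      show c (R (stp H.lab op cur p ch[k])) = _
      rw [h1, stp_left _ _ _ _ hne]
    have e2 : g (k + 1) = c (L (nxt.symm p)) := by
      rw [hg, gp_succ _ _ (by omega)]
      show c (R (cur ch[k])) = _
      rw [h1, b1, hc.S p hp]
      unfold pr
      rw [hop]
    have e3 : g k = c (L p) := by
      rw [hg, gp_left (by exact hadj) (by omega)]
      show c (L (cur ch[k])) = _
      rw [h1, b1, ← hc.W p hp]
    have e4 : g (k + 2) = c (R (op p)) := by
      rw [hg, gp_succ _ _ (by omega)]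
      show c (R (cur ch[k + 1])) = _
      rw [h2, b2, ← hc.E p hp]
    rw [e1, e2, e3, e4]
    unfold rw1
    ring
  · rw [if_neg hj, add_zero]
    unfold lt
    rw [if_neg hj]
    cases j with
    | zero =>
      have hl : 0 < ch.length := by omega
      rw [hg', hg, gp_zero_cons _ _ hl, gp_zero_cons _ _ hl]
      show c (L (stp H.lab op cur p ch[0])) = c (L (cur ch[0]))
      have a2 : ch[0] ≠ H.lab (op p) := fun h => by
        have := (hidx 0 hl).2.1 h
        omega
      by_cases a1 : ch[0] = H.lab p
      · rw [a1, stp_left _ _ _ _ hne, b1, ← hc.W p hp]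
      · rw [stp_of_ne _ _ _ _ _ a1 a2]
    | succ i =>
      by_cases hl : i < ch.length
      · rw [hg', hg, gp_succ _ _ hl, gp_succ _ _ hl]
        show c (R (stp H.lab op cur p ch[i])) = c (R (cur ch[i]))
        have a1 : ch[i] ≠ H.lab p := fun h => by
          have := (hidx i hl).1.1 h
          omega
        by_cases a2 : ch[i] = H.lab (op p)
        · rw [a2, stp_right, b2, ← hc.E p hp]
        · rw [stp_of_ne _ _ _ _ _ a1 a2]
      · rw [hg', hg, gp_big _ _ (by omega), gp_big _ _ (by omega)]

/-- the sorted list of the crossings with a box in the middle -/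
structure Mid (H : Cut nxt op C τ) (lf : P → Bool) (L R : P → F) (Sp : Finset P) (U : List P) (B : List P × List P) (V : List P) : Prop where
  hlf : ∀ p, lf (op p) = !lf p
  corn : Corn nxt op lf L R
  box : IsBox H Sp B
  sorted : (U ++ B.2 ++ V).Pairwise fun a b => τ a < τ b
  all : ∀ q, q ∈ U ++ B.2 ++ V ↔ lf q = true
  ne : ∀ p, H.lab p ≠ H.lab (op p)

variable {H} {Sp : Finset P} {U V : List P} {B : List P × List P}

theorem Mid.split (_ : Mid H lf L R Sp U B V) {n : ℕ} (hn : n < B.2.length) :
    U ++ B.2 ++ V = (U ++ B.2.take n) ++ B.2[n] :: (B.2.drop (n + 1) ++ V) := by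
  have e : B.2 = B.2.take n ++ B.2[n] :: B.2.drop (n + 1) := by
    rw [← List.drop_eq_getElem_cons hn, List.take_append_drop]
  refine (congrArg (fun l => U ++ l ++ V) e).trans ?_
  simp only [List.append_assoc, List.cons_append]

theorem Mid.lfp (M : Mid H lf L R Sp U B V) {p : P} (hp : p ∈ B.2) : lf p = true :=
  (M.all p).1 (by simp [hp])

theorem Mid.before (M : Mid H lf L R Sp U B V) {n : ℕ} (hn : n < B.2.length) {f : P} (hf : f = B.2[n] ∨ f = op B.2[n]) :
    st H.lab op (U ++ B.2.take n) (H.lab f) = pr nxt op f :=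
  H.st_before M.hlf (p := B.2[n]) (M.split hn ▸ M.sorted) (fun q hq => M.split hn ▸ (M.all q).2 hq)
    (fun q _ => M.ne q) hf

theorem Mid.junc (M : Mid H lf L R Sp U B V) {n : ℕ} (hn : n ≤ B.2.length) (j : ℕ) (h : j + 1 < B.1.length) :
    R (st H.lab op (U ++ B.2.take n) B.1[j]) = L (st H.lab op (U ++ B.2.take n) B.1[j + 1]) :=
  H.junction M.hlf M.corn M.box M.sorted M.all M.ne h n hn

/-- (S1) for a box -/
theorem Mid.step (M : Mid H lf L R Sp U B V) {n : ℕ} (hn : n < B.2.length) (j : ℕ) :
    gp (vL H L c (U ++ B.2.take (n + 1))) (vL H R c (U ++ B.2.take (n + 1))) B.1 j =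
      lt s ((lts H B)[n]'(by unfold lts; rw [List.length_map]; exact hn))
        (gp (vL H L c (U ++ B.2.take n)) (vL H R c (U ++ B.2.take n)) B.1) j +
        (if j = (lts H B)[n]'(by unfold lts; rw [List.length_map]; exact hn) + 1 then rw1 nxt op L R c s B.2[n] else 0) := by
  classical
  have hp := List.getElem_mem hn
  obtain ⟨hk, h1, h2⟩ := idx_spec M.box hp
  have htake : U ++ B.2.take (n + 1) = (U ++ B.2.take n) ++ [B.2[n]] := by
    rw [List.take_succ_eq_append_getElem hn]
    simp
  have e1 : ∀ T : P → F, vL H T c (U ++ B.2.take (n + 1)) = fun l => c (T (stp H.lab op (st H.lab op (U ++ B.2.take n)) B.2[n] l)) := by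
    intro T
    funext l
    unfold vL
    rw [htake, st_snoc]
  have e2 : (lts H B)[n]'(by unfold lts; rw [List.length_map]; exact hn) = B.1.idxOf (H.lab B.2[n]) := by
    unfold lts
    rw [List.getElem_map]
  rw [e1, e1, e2]
  exact gap_step H c s M.corn H.op_op M.box.nodup (M.lfp hp) (M.ne _) (M.before hn (Or.inl rfl)) (M.before hn (Or.inr rfl))
    (fun j h => congrArg c (M.junc hn.le j h)) hk h1 h2 j

/-- (S2) a box all of whose rows vanish -/
theorem Mid.exact (M : Mid H lf L R Sp U B V) (h0 : ∀ p ∈ B.2, rw1 nxt op L R c s p = 0) (j : ℕ) :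
    gp (vL H L c (U ++ B.2)) (vL H R c (U ++ B.2)) B.1 j = Ev s (lts H B) (gp (vL H L c U) (vL H R c U) B.1) j := by
  have hlen : (lts H B).length = B.2.length := by unfold lts; rw [List.length_map]
  have key : ∀ n ≤ B.2.length, gp (vL H L c (U ++ B.2.take n)) (vL H R c (U ++ B.2.take n)) B.1 =
      Ev s ((lts H B).take n) (gp (vL H L c U) (vL H R c U) B.1) := by
    intro n
    induction n with
    | zero =>
      intro _
      simp [Ev]
    | succ n ih =>
      intro hn
      have hn' : n < B.2.length := by omega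
      funext j
      rw [M.step c s hn' j, h0 _ (List.getElem_mem hn'), ih hn'.le]
      rw [List.take_succ_eq_append_getElem (by rw [hlen]; exact hn')]
      unfold Ev
      rw [List.foldl_append]
      simp
  have h := key B.2.length le_rfl
  rw [List.take_length] at h
  rw [h, List.take_of_length_le hlen.le]

/-- (S3) a box with one crossing -/
theorem Mid.single (M : Mid H lf L R Sp U B V) {p : P} (hB : B.2 = [p]) :
    ∃ k, lts H B = [k] ∧ k + 1 < B.1.length ∧ ∀ j,
      gp (vL H L c (U ++ B.2)) (vL H R c (U ++ B.2)) B.1 j =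
        Ev s (lts H B) (gp (vL H L c U) (vL H R c U) B.1) j + (if j = k + 1 then rw1 nxt op L R c s p else 0) := by
  classical
  have hn : 0 < B.2.length := by rw [hB]; simp
  have e0 : B.2[0] = p := by simp [hB]
  obtain ⟨hk, h1, h2⟩ := idx_spec M.box (p := p) (by rw [hB]; simp)
  have e1 : lts H B = [B.1.idxOf (H.lab p)] := by
    unfold lts
    rw [hB]
    rfl
  refine ⟨_, e1, hk, fun j => ?_⟩
  have h := M.step c s hn j
  have e2 : B.2.take (0 + 1) = B.2 := by rw [hB]; rfl
  have e3 : (lts H B)[0]'(by unfold lts; rw [List.length_map]; exact hn) = B.1.idxOf (H.lab p) := by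
    simp [e1]
  rw [e2, e3, e0, List.take_zero, List.append_nil] at h
  rw [h, e1]
  rfl

/-- (S3) the new values of a box with one crossing -/
theorem Mid.single_val (M : Mid H lf L R Sp U B V) {p : P} (hB : B.2 = [p]) (j : ℕ) :
    gp (vL H L c (U ++ B.2)) (vL H R c (U ++ B.2)) B.1 j = c (R p) ∨
      gp (vL H L c (U ++ B.2)) (vL H R c (U ++ B.2)) B.1 j = gp (vL H L c U) (vL H R c U) B.1 j := by
  classical
  obtain ⟨k, e1, hk, h⟩ := M.single c 0 hB
  by_cases hj : j = k + 1
  · left
    subst hj
    have hp : p ∈ B.2 := by rw [hB]; simp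
    obtain ⟨hk', h1, h2⟩ := idx_spec M.box hp
    have e2 : B.1.idxOf (H.lab p) = k := by
      have : lts H B = [B.1.idxOf (H.lab p)] := by
        unfold lts
        rw [hB]
        rfl
      rw [this] at e1
      simpa using e1
    rw [gp_succ _ _ (by omega)]
    unfold vL
    rw [hB, st_snoc]
    have h3 : B.1[k] = H.lab p := by
      simp only [e2] at h1
      exact h1
    rw [h3, stp_left _ _ _ _ (M.ne p)]
  · right
    rw [h j, if_neg hj, add_zero, e1]
    show lt 0 k _ j = _
    unfold lt
    rw [if_neg hj]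

/-- (S4) the labels outside of the box -/
theorem Mid.out (M : Mid H lf L R Sp U B V) {l : P} (hl : l ∉ B.1) : st H.lab op (U ++ B.2) l = st H.lab op U l := by
  have key : ∀ n ≤ B.2.length, st H.lab op (U ++ B.2.take n) l = st H.lab op U l := by
    intro n
    induction n with
    | zero => intro _; simp
    | succ n ih =>
      intro hn
      have hn' : n < B.2.length := by omega
      have htake : U ++ B.2.take (n + 1) = (U ++ B.2.take n) ++ [B.2[n]] := by
        rw [List.take_succ_eq_append_getElem hn']
        simp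
      obtain ⟨k, hk, h1, h2⟩ := M.box.letter _ (List.getElem_mem hn')
      rw [htake, st_snoc, stp_of_ne, ih hn'.le]
      · intro h
        exact hl (by rw [h, ← h1]; exact List.getElem_mem _)
      · intro h
        exact hl (by rw [h, ← h2]; exact List.getElem_mem _)
  have h := key B.2.length le_rfl
  rwa [List.take_length] at h

end step

end Pool.Agent.Helper57.PD
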