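import Pool.Agent.Helper57.PD.H3G
import Pool.Agent.Helper57.PD.Slice
import Pool.Agent.Helper43.PD.Plane

/-!
# EV3: the final theorem from the two estimates of the network
-/

set_option autoImplicit false

namespace Pool.Agent.Helper57.PD

open Polynomial Pool.Agent.Helper85.Exp Pool.Agent.Helper60.EV2 Pool.Agent.Helper2.PD Pool.Agent.Helper16.PD
  Pool.Agent.Helper41.PD Pool.Agent.Helper27.EV2

/-- the lower estimate of the network -/
def LowS : Prop := ∀ (N : ℕ) (Φ : ℝ), 0 < Φ → ∃ th : ℝ, 0 < th ∧ ∃ K : ℝ, 0 < K ∧ ∀ x y : ℝ, 0 < x → x ≤ Φ → |y| ≤ th →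
  ∀ (P : Type) [Fintype P] (G : Sh P) (C : Finset P) (τ : P → ℕ) (H : Cut G.nxt G.op C τ) (Bs : List (List P × List (P × ℕ))),
    (∀ i, G.op i ≠ i) → Pool.Agent.Helper2.PD.Conn G → Planar G → C.card ≤ N → Bs.length ≤ N → SB H G.lf (spc G C) Bs →
    ∀ (c : Face G → ℂ) (F : ℝ), ∀ b ∈ C, ‖c (Lf G b)‖ ≤ F → ‖c (Rf G b)‖ ≤ F →
    (∀ p, G.lf p = true → p ∉ spc G C → rw1 G.nxt G.op (Lf G) (Rf G) c (ss x y) p = 0) →
    (∀ p, G.lf p = true → p ∈ spc G C → ‖rw1 G.nxt G.op (Lf G) (Rf G) c (ss x y) p‖ ≤ F) →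
    ∀ f, ‖c f‖ ≤ K / x * F

/-- the upper estimate of the network -/
def UpS : Prop := ∀ (N : ℕ) (Φ : ℝ), 0 < Φ → ∃ th : ℝ, 0 < th ∧ ∃ K : ℝ, 0 < K ∧ ∀ x y : ℝ, 0 < x → x ≤ Φ → |y| ≤ th →
  ∀ (P : Type) [Fintype P] (G : Sh P) (C : Finset P) (τ : P → ℕ) (H : Cut G.nxt G.op C τ) (Bs : List (List P × List (P × ℕ))),
    (∀ i, G.op i ≠ i) → Pool.Agent.Helper2.PD.Conn G → Planar G → C.card ≤ N → Bs.length ≤ N → SB H G.lf (spc G C) Bs →
    ∀ (c : Face G → ℂ) (M : ℝ), 0 ≤ M → (∀ b ∈ C, ‖c (Lf G b)‖ ≤ M ∧ ‖c (Rf G b)‖ ≤ M) →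
    (∀ p, G.lf p = true → p ∉ spc G C → rw1 G.nxt G.op (Lf G) (Rf G) c (ss x y) p = 0) →
    (∀ p, G.lf p = true → p ∈ spc G C → ‖c (Rf G p)‖ ≤ M) →
    ∀ f, ‖c f‖ ≤ K * M

/-- the last assembly, with the base passage chosen by the cut -/
theorem last_of' (s : ℕ)
    (bd : ∃ N : ℕ, ∃ th K : ℝ → ℝ, (∀ Φ : ℝ, 0 < Φ → 0 < th Φ ∧ 0 < K Φ) ∧ ∀ (P : Type) [Fintype P] (G : Sh P) (h : Good s G),
      Nonempty P → ∃ (b : P) (sp : Cr G → Prop) (tau : Cr G → ℕ), (fdG h b).Tm sp tau ∧ Nat.card {x // sp x} ≤ N ∧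
        ∀ Φ : ℝ, 0 < Φ → ∀ x y : ℝ, 0 < x → x ≤ Φ → |y| ≤ th Φ →
          (fdG h b).Lower sp (ss x y) x (K Φ) ∧ (fdG h b).Upper sp (ss x y) (K Φ)) :
    ∃ m₀ : ℕ, ∀ (P : Type) [Fintype P] (G : Sh P), Good s G → m₀ ≤ Nat.card (Cr G) →
      ∀ nab : Dg G → ℤ[X], Cs nab → ∀ k : ℕ,
        (nab (allPos G)).coeff k * (nab (allPos G)).coeff (k + 4) ≤ (nab (allPos G)).coeff (k + 2) ^ 2 := by
  classical
  obtain ⟨N, th, K, hpos, hbd⟩ := bd
  have hne : ∀ o : Ob s, Nonempty o.P := fun o => ⟨o.b⟩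
  choose b sp tau hT hcard hLU using fun o : Ob s => hbd o.P o.G o.good (hne o)
  letI : ∀ o : Ob s, Fintype (Face o.G) := fun o => Fintype.ofFinite _
  choose α nab e hn hα hwr hform hA using fun o : Ob s => one_shadow o.good (b o)
  obtain ⟨m₀, hm₀⟩ := ev3_core (ι := Ob s) (fun o => o.P) (fun o => o.G) b (fun o => Nat.card (Cr o.G)) α
    (fun o => nab o (allPos o.G)) (6 * s * s + s)
    (fun o => by have := hne o; exact (Pool.Agent.Helper60.PD.nab_nn o.good.ho (hn o)).1)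
    (fun o => by have := hne o; exact (Pool.Agent.Helper60.PD.nab_nn o.good.ho (hn o)).2.2)
    (fun o => by
      have := hne o
      have h1 := (Pool.Agent.Helper60.PD.nab_nn o.good.ho (hn o)).2.1
      have h2 := Pool.Agent.Helper2.PD.card_P o.G o.good.ho
      have h4 : Nat.card (Cr o.G) = Nat.card (Xg o.G) := rfl
      omega)
    (fun o z hz => hform o z hz) (fun o => hα o)
    (fun o => Cr o.G) (fun o => Face o.G) (fun o => fdG o.good (b o)) e
    (fun o z hz => by rw [hA o z hz])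
    (fun Φ hΦ => ⟨N, th Φ, (hpos Φ hΦ).1, K Φ, (hpos Φ hΦ).2, fun o => ⟨sp o, tau o, hT o, hcard o,
      fun x y hx hxΦ hy => hLU o Φ hΦ x y hx hxΦ hy⟩⟩)
    (fun r₀ R hr₀ hR => by
      obtain ⟨c, hc, C, hC⟩ := h3_good s r₀ R hr₀
      exact ⟨c, hc, C, fun o z h1 h2 a ha ha2 => hC o.P o.G o.good ⟨o.b⟩ (nab o) (hn o) z h1 h2 a ha ha2⟩)
  refine ⟨max m₀ 1, fun P _ G hG hm nab' hnab' k => ?_⟩
  have h1 : 0 < Nat.card (Cr G) := by
    have := le_trans (le_max_right _ _) hm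
    omega
  have : Nonempty (Cr G) := (Nat.card_pos_iff.1 h1).1
  obtain ⟨b0⟩ : Nonempty P := ⟨(Classical.arbitrary (Cr G)).1⟩
  have : Nonempty P := ⟨b0⟩
  let o : Ob s := ⟨P, inferInstance, G, hG, b0⟩
  have h2 : nab' = nab o := Cs.unique hnab' (hn o)
  rw [h2]
  exact hm₀ o (le_trans (le_max_left _ _) hm) k

theorem row_eq {P : Type} [Fintype P] {G : Sh P} {s : ℕ} (h : Good s G) (b : P) (c : Face G → ℂ) (z : ℂ) (x : Cr G) :
    (fdG h b).row (z ^ 2) (-z) (-z) c x = rw1 G.nxt G.op (Lf G) (Rf G) c z x.1 := rfl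

/-- **The final theorem from the two estimates of the network.** -/
theorem fin_of (low : LowS) (up : UpS) (s : ℕ) : ∃ m₀ : ℕ, ∀ (P : Type) [Fintype P] (G : Sh P), Good s G →
      m₀ ≤ Nat.card (Cr G) → ∀ nab : Dg G → ℤ[X], Cs nab → ∀ k : ℕ,
        (nab (allPos G)).coeff k * (nab (allPos G)).coeff (k + 4) ≤ (nab (allPos G)).coeff (k + 2) ^ 2 := by
  classical
  obtain ⟨N1, hN1⟩ : ∃ N1, N1 = s * s * s + 2 * (8 * s + 4 * (s * s * s) + 1) * (s * s * s) := ⟨_, rfl⟩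
  choose! th1 hth1 K1 hK1 H1 using fun Φ hΦ => low N1 Φ hΦ
  choose! th2 hth2 K2 hK2 H2 using fun Φ hΦ => up N1 Φ hΦ
  refine last_of' s ⟨8 * s + 4 * (s * s * s), fun Φ => min (th1 Φ) (th2 Φ), fun Φ => max (K1 Φ) (K2 Φ),
    fun Φ hΦ => ⟨lt_min (hth1 Φ hΦ) (hth2 Φ hΦ), lt_of_lt_of_le (hK1 Φ hΦ) (le_max_left _ _)⟩, ?_⟩
  intro P _ G hG hne
  obtain ⟨C, τ, H, Bs, x0, h1, h2, h3, h5, hx0⟩ := exists_data hG hne
  letI : Fintype (Face G) := Fintype.ofFinite _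
  refine ⟨G.nxt x0, fun x => x.1 ∈ spc G C, fun x => τ x.1, tm_of hG H hx0, ?_, ?_⟩
  · refine le_trans ?_ h2
    have e1 : Nat.card {p : P // p ∈ spc G C} = (spc G C).card := by
      rw [Nat.card_eq_fintype_card, Fintype.card_coe]
    rw [← e1]
    refine Nat.card_le_card_of_injective (fun x : {x : Cr G // x.1 ∈ spc G C} => (⟨x.1.1, x.2⟩ : {p : P // p ∈ spc G C})) ?_
    intro x y hxy
    have h8 : x.1.1 = y.1.1 := congrArg (fun z : {p : P // p ∈ spc G C} => z.1) hxy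
    exact Subtype.ext (Subtype.ext h8)
  · intro Φ hΦ x y hx hxΦ hy
    have hf1 : (fdG hG (G.nxt x0)).f₁ = Lf G x0 := by
      show Lf G (G.nxt.symm (G.nxt x0)) = _
      rw [Equiv.symm_apply_apply]
    have hf2 : (fdG hG (G.nxt x0)).f₂ = Rf G x0 := by
      show Rf G (G.nxt.symm (G.nxt x0)) = _
      rw [Equiv.symm_apply_apply]
    constructor
    · -- lower
      intro c F hc1 hc2 hr hF f hf1' hf2' hf
      rw [hf1] at hc1
      rw [hf2] at hc2
      have hF0 : 0 ≤ F := by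
        by_contra hF0
        push Not at hF0
        -- there is a special crossing or a cut edge with this face
        have hnosp : ∀ p, p ∉ spc G C := by
          intro p hp
          have hl : G.lf p = true := (Finset.mem_filter.1 hp).2.1
          have := hF ⟨p, hl⟩ hp
          exact absurd ((norm_nonneg _).trans this) (not_le.2 hF0)
        -- without special crossings there is no special face off the base edge
        obtain ⟨e', he'⟩ := (fdG hG (G.nxt x0)).exists_equiv (tm_of hG H hx0)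
        have h6 : ¬ (e'.symm ⟨f, hf1', hf2'⟩).1 ∈ spc G C := hnosp _
        apply hf _ h6
        rw [← he' _ h6, Equiv.apply_symm_apply]
      have h6 := H1 Φ hΦ x y hx hxΦ (hy.trans (min_le_left _ _)) P G C τ H Bs hG.ho hG.hc hG.hp (by omega) (by omega) h5 c F
        x0 hx0 (by rw [hc1, norm_zero]; exact hF0) (by rw [hc2, norm_zero]; exact hF0)
        (fun p hp hsp => hr ⟨p, hp⟩ hsp) (fun p hp hsp => hF ⟨p, hp⟩ hsp) f
      have h7 : x * ‖c f‖ ≤ K1 Φ * F := by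
        have h8 := mul_le_mul_of_nonneg_left h6 hx.le
        have h9 : x * (K1 Φ / x * F) = K1 Φ * F := by field_simp
        linarith
      exact h7.trans (mul_le_mul_of_nonneg_right (le_max_left _ _) hF0)
    · intro c M hM hc1 hc2 hr hMf v hv
      rw [hf1] at hc1
      rw [hf2] at hc2
      have h6 := H2 Φ hΦ x y hx hxΦ (hy.trans (min_le_right _ _)) P G C τ H Bs hG.ho hG.hc hG.hp (by omega) (by omega) h5 c M hM
        (fun e he => ⟨hMf _ fun v hv he' => (reg_face v.2 hv).2 e he |>.1 he'.symm,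
          hMf _ fun v hv he' => (reg_face v.2 hv).2 e he |>.2 he'.symm⟩)
        (fun p hp hsp => hr ⟨p, hp⟩ hsp)
        (fun p hp hsp => hMf _ fun v hv hvp => by
          have h7 := (tm_of hG H hx0).uniq v ⟨p, hp⟩ hv hvp.symm
          rw [← h7] at hv
          exact hv hsp)
      have h8 : ∀ f, ‖c f‖ ≤ max (K1 Φ) (K2 Φ) * M := fun f => (h6 f).trans (mul_le_mul_of_nonneg_right (le_max_right _ _) hM)
      exact ⟨h8 _, h8 _, h8 _, h8 _⟩

end Pool.Agent.Helper57.PD
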